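import Pool.Agent.W5h30.BJ.Alg

/-!
# Every tuple of algebraic numbers in almost all integer bases

Let `x_1, …, x_n` be fixed real algebraic numbers such that `1, x_1, …, x_n` are linearly independent
over the rational numbers, or any real numbers for which the linear forms `k_1 x_1 + … + k_n x_n + p`
are not smaller than a negative power of the coefficients. We show that for random `r ≤ R` the
fractional parts of the numbers `x_j r ^ i`, `1 ≤ j ≤ n`, `1 ≤ i ≤ N`, the first `N` terms of the
sequences which describe the digits of `x_1, …, x_n` in the base `r`, are jointly distributed like `n N` independent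
uniformly distributed random numbers, in the sense of the total variation distance, as soon as
`N ≤ (log R) ^ η`: divide the unit interval into `D ≤ exp ((log R) ^ η)` equal intervals; for every set
`A` of `n × N` matrices of classes, the number of `r ≤ R` for which the matrix of the classes of the
numbers `x_j r ^ i` is in `A` is `R |A| / D ^ (n N)` up to an error of at most `R exp (- √(log R))`. Here
`η > 0` is an absolute constant.

Proof. Vinogradov's mean value theorem of the starting files (with constants which are explicit in the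
degree) and the double application of Hoelder's inequality bound the exponential sums over `r ≤ R` of the
polynomials `∑ i, (∑ j, h j i x j) r ^ i`; the leading coefficient is badly approximable enough by the
subspace theorem of the starting files. Products of Fejer kernels in `n N` variables give the result.
-/

set_option autoImplicit false

namespace Pool.Agent.W5h30.OL.AlmostAllBases

/-- the matrix of the classes of the fractional parts of the numbers `x_j r ^ i`, `1 ≤ i ≤ N`: the unit
interval is divided into the `D` intervals `[l / D, (l + 1) / D)`, `l < D`, and the class of a number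
in the `l`-th interval is `l` -/
noncomputable def classes {n : ℕ} (x : Fin n → ℝ) (N D r : ℕ) (j : Fin n) (i : Fin N) : ℕ :=
  ⌊(D : ℝ) * Int.fract (x j * (r : ℝ) ^ ((i : ℕ) + 1))⌋₊

/-- There is an absolute constant `η > 0` such that for all real algebraic numbers `x_1, …, x_n` with
`1, x_1, …, x_n` linearly independent over the rational numbers, and more generally for all real numbers
`x_1, …, x_n` whose linear forms are bounded below by a negative power of the coefficients, there is `R₀`
such that for all `R ≥ R₀`, all `N ≤ (log R) ^ η` and `1 ≤ D ≤ exp ((log R) ^ η)` and all sets `A` of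
`n × N` matrices with entries in `{0, …, D - 1}`, the number of the bases `2 ≤ r ≤ R` for which the
matrix of the classes of the numbers `x_j r ^ i` is in `A` differs from `R |A| / D ^ (n N)` by at most
`R exp (- √(log R))`. -/
theorem result : ∃ η : ℝ, 0 < η ∧ ∀ (n : ℕ) (x : Fin n → ℝ),
    ((∀ j, IsAlgebraic ℚ (x j)) ∧
        (∀ (k : Fin n → ℤ) (p : ℤ), ∑ j, (k j : ℝ) * x j = p → k = 0) ∨
      ∃ (τ : ℕ) (c : ℝ), 0 < c ∧ ∀ k : Fin n → ℤ, k ≠ 0 → ∀ p : ℤ,
        c ≤ (∑ j, |(k j : ℝ)|) ^ τ * |∑ j, (k j : ℝ) * x j - p|) →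
    ∃ R₀ : ℕ, ∀ R : ℕ, R₀ ≤ R → ∀ N D : ℕ, (N : ℝ) ≤ (Real.log R) ^ η → 1 ≤ D →
      (D : ℝ) ≤ Real.exp ((Real.log R) ^ η) →
      ∀ A : Finset (Fin n → Fin N → ℕ), (∀ a ∈ A, ∀ j i, a j i < D) →
      |(({r : ℕ | 2 ≤ r ∧ r ≤ R ∧ classes x N D r ∈ A}.ncard : ℕ) : ℝ) -
        R * ((A.card : ℝ) / (D : ℝ) ^ (n * N))| ≤ R * Real.exp (-√(Real.log R)) := by
  classical
  obtain ⟨η, hη, h⟩ := Pool.Agent.W5h30.BJ.main
  refine ⟨η, hη, fun n x hx => ?_⟩
  obtain ⟨τ, C0, hC0, hty⟩ : ∃ (τ : ℕ) (C0 : ℝ), 1 ≤ C0 ∧ ∀ (H : ℝ) (k : Fin n → ℤ), k ≠ 0 →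
      (∀ j, |(k j : ℝ)| ≤ H) → 1 / (C0 * H ^ τ) ≤ Pool.Agent.Y957.VK.dz (∑ j, (k j : ℝ) * x j) := by
    rcases hx with hx | hx
    · exact Pool.Agent.W5h30.BJ.alg_type x hx.1 hx.2
    · exact Pool.Agent.W5h30.BJ.gen_type x hx
  obtain ⟨R₀, hR₀⟩ := h n x τ C0 hC0 hty
  refine ⟨R₀, fun R hR N D hN hD1 hD A hA => ?_⟩
  have h1 := hR₀ R hR N D hN hD1 hD A hA
  have h2 : {r : ℕ | 2 ≤ r ∧ r ≤ R ∧ classes x N D r ∈ A} =
      (((Finset.Icc 2 R).filter (fun r => Pool.Agent.W5h30.BJ.cls x N D r ∈ A) : Finset ℕ) :
        Set ℕ) := by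
    ext r
    rw [Finset.mem_coe, Finset.mem_filter, Finset.mem_Icc]
    constructor
    · rintro ⟨h3, h4, h5⟩
      exact ⟨⟨h3, h4⟩, h5⟩
    · rintro ⟨⟨h3, h4⟩, h5⟩
      exact ⟨h3, h4, h5⟩
  rw [h2, Set.ncard_coe_finset]
  exact h1

end Pool.Agent.W5h30.OL.AlmostAllBases
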