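import Pool.Agent.W5h30.An.Ef

/-!
# The digits of the factorial multiples `n! e`

The number `n! e` is an integer plus `1 / (n + 1) + 1 / ((n + 1)(n + 2)) + ⋯`, so its first `log_b n`
digits after the point in base `b` are zeros (this is the usual proof of the irrationality of `e`). The
following ones are as random as possible, for almost all `n`: for all but at most `N ^ (1 - c)` of the
`n` in `(N, 2N]` all words of at most `w` digits occur in `n! e` with the right frequency in every
window of places between `log_b N` and `A log N`, up to `ε log N`, in all bases `b ≤ B`; here `A` is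
arbitrarily large and `ε > 0` arbitrarily small. The same holds for `k n! e + R(n)`, uniformly for all
integers `k ≠ 0` with `|k| ≤ N ^ W` and all real polynomials `R` of degree at most `d`. (For every `n`
the number `n! e` is normal in base `b` if and only if `e` is.) No hypothesis is assumed.

Proof. The fractional part of `n! e` is the value at `n` of the function
`∑ (-1)^i e / (i! (x + 1 + i))`, whose derivative of order `m` is of the exact order `x ^ (-1 - m)`.
The van der Corput test of high order bounds the exponential sums.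
-/

set_option autoImplicit false

namespace Pool.Agent.W5h30.OL.FactorialMultiples

open Polynomial

/-- the word of the `k` digits in base `b` of `y` which follow the first `n` digits after the point,
read as an integer between `0` and `b ^ k - 1` -/
noncomputable def word (b k n : ℕ) (y : ℝ) : ℕ :=
  ⌊(b : ℝ) ^ k * Int.fract ((b : ℝ) ^ n * y)⌋₊

/-- in every base `2 ≤ b ≤ B` the number of occurrences of every word of `k ≤ w` digits at the `M`
places `s, …, s + M - 1` of `y`, for every window with `b ^ s ≥ X` and `s + M ≤ L`, differs from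
`M / b ^ k` by at most `E` -/
def NormalBetween (B w : ℕ) (X L E : ℝ) (y : ℝ) : Prop :=
  ∀ b k j s M : ℕ, 2 ≤ b → b ≤ B → 1 ≤ k → k ≤ w → j < b ^ k → X ≤ (b : ℝ) ^ s →
    (s : ℝ) + M ≤ L →
    |(({i : ℕ | i < M ∧ word b k (s + i) y = j}.ncard : ℕ) : ℝ) - M / (b : ℝ) ^ k| ≤ E

lemma word_add_int (b k n : ℕ) (y : ℝ) (a : ℤ) : word b k n (y + a) = word b k n y := by
  unfold word
  have h : (b : ℝ) ^ n * (y + a) = (b : ℝ) ^ n * y + (((b : ℤ) ^ n * a : ℤ) : ℝ) := by
    push_cast
    ring
  rw [h, Int.fract_add_intCast]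

/-- Let `B`, `w`, `d`, `A`, `W` and `ε > 0` be given. There are `c > 0` and `N₀` such that for all
`N ≥ N₀`, all integers `k ≠ 0` with `|k| ≤ N ^ W` and all real polynomials `R` of degree at most `d`,
the numbers `k n! e + R(n)` satisfy `NormalBetween B w N (A log N) (ε log N)` for all integers `n` with
`N < n ≤ 2 N`, except for at most `N ^ (1 - c)` of them. -/
theorem result (B w d : ℕ) (A W ε : ℝ) (hε : 0 < ε) :
    ∃ c : ℝ, 0 < c ∧ ∃ N₀ : ℕ, ∀ N : ℕ, N₀ ≤ N → ∀ (k : ℤ) (R : ℝ[X]), k ≠ 0 →
      |(k : ℝ)| ≤ (N : ℝ) ^ W → R.natDegree ≤ d →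
      (({n : ℕ | N < n ∧ n ≤ 2 * N ∧ ¬ NormalBetween B w N (A * Real.log N) (ε * Real.log N)
        (k * (n.factorial * Real.exp 1) + R.eval (n : ℝ))}.ncard : ℕ) : ℝ) ≤ (N : ℝ) ^ (1 - c) := by
  classical
  obtain ⟨c, hc, q0, h⟩ := Pool.Agent.W5h30.An.normal_seq (zero_le_one) Pool.Agent.W5h30.An.reg_ef
    B w d A W ε hε
  refine ⟨c, hc, max q0 1, ?_⟩
  intro N hN k R hk hkW hR
  have hNq : q0 ≤ N := (le_max_left _ _).trans hN
  have hN1 : 1 ≤ N := (le_max_right _ _).trans hN
  have hNR : (1 : ℝ) ≤ N := by exact_mod_cast hN1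
  have hNp : (0 : ℝ) < N := by linarith
  have hk1 : (1 : ℝ) ≤ |(k : ℝ)| := by
    have : (1 : ℤ) ≤ |k| := Int.one_le_abs hk
    exact_mod_cast this
  have hk2 : (N : ℝ) ^ (-(ε / 16)) ≤ |(k : ℝ)| := le_trans
    (Real.rpow_le_one_of_one_le_of_nonpos hNR (by linarith)) hk1
  have key := h N hNq (k : ℝ) R hR hk2 hkW
  refine le_trans ?_ key
  refine Nat.cast_le.2 ?_
  rw [← Set.ncard_coe_finset]
  refine Set.ncard_le_ncard ?_ (Finset.finite_toSet _)
  rintro n ⟨hn1, hn2, hn3⟩
  rw [Finset.mem_coe, Finset.mem_filter, Finset.mem_Ioc]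
  refine ⟨⟨hn1, hn2⟩, fun hcon => hn3 ?_⟩
  intro b l j s M hb hbB hl hlw hj hs hsM
  obtain ⟨a, ha⟩ := Pool.Agent.W5h30.An.fact_e n
  have h1 := hcon b l j s M hb hbB hl hlw hj (by rwa [Real.rpow_one]) hsM
  have h2 : {i : ℕ | i < M ∧ word b l (s + i)
      (k * (n.factorial * Real.exp 1) + R.eval (n : ℝ)) = j} =
      (((Finset.range M).filter (fun i => Pool.Agent.Y933.KD.wd b l (s + i)
        (k * Pool.Agent.W5h30.An.ef 0 n + R.eval (n : ℝ)) = j) : Finset ℕ) : Set ℕ) := by
    ext i
    simp only [Set.mem_ofPred_eq, Finset.coe_filter, Finset.mem_range]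
    have h3 : (k : ℝ) * (n.factorial * Real.exp 1) + R.eval (n : ℝ) =
        ((k : ℝ) * Pool.Agent.W5h30.An.ef 0 n + R.eval (n : ℝ)) + ((k * a : ℤ) : ℝ) := by
      rw [ha]
      push_cast
      ring
    rw [h3, word_add_int]
    rfl
  rw [h2, Set.ncard_coe_finset]
  exact h1

end Pool.Agent.W5h30.OL.FactorialMultiples
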