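import Pool.Agent.W5h30.An.Clt
import Pool.Agent.Y933.KG.AlgHat

/-!
# The central limit theorem for the digits of a random algebraic number

The real algebraic numbers `x` of degree `d ≥ 2` are ordered by their height `H`, the largest absolute
value of a coefficient of the minimal polynomial over the integers. Fix a base `b` and a function `F`
of the words of `w` digits, for instance the indicator function of one word, or the digit itself. For a
random `x` of degree `d` and height at most `H` the sum of the values of `F` at the words which begin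
at `N(H)` consecutive places between the places `δ log_b H` and `A log_b H` of `x` is asymptotically
normal when `N(H)` tends to infinity, with the mean and the variance which belong to a random real
number. For instance the number of ones among the binary digits of `x` at these places is
`N / 2 + X √N / 2` with `X` asymptotically standard normal. The same holds for `G(x)` instead of `x`,
where `G` is a real polynomial of degree between `1` and `d - 1`. The numbers `δ > 0` and `A` are
arbitrary. No hypothesis is assumed.

Proof. The exponential sums over the real algebraic numbers of degree `d` and height at most `H` with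
frequencies between `H ^ δ` and `H ^ A` have a power saving (starting files, from the van der Corput
test of high order); this gives all the moments of the sums.
-/

/-!
Library file (not a hand-in). Description:

Proves: Let d, b >= 2, w >= 1, F a real function of the words of w base-b digits with positive variance, G a real polynomial with 1 <= deg G < d, D > 0, A real. If N(H) -> infinity and, for all large H, b^(s(H)) >= H^D and b^(s(H)+N(H)) <= H^A, then the proportion of the real algebraic numbers x of degree d and height at most H for which the sum of F over the w-digit words of G(x) starting after the places s(H)+i, 0 <= i < N(H), is at most N(H) mean + t sqrt(variance N(H)) tends, for every real t, to the standard normal distribution function at t.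
Definitions: AlgNumbers d H: real roots of irreducible integer polynomials of degree d, coefficients at most H in absolute value. word b w n x: the w base-b digits of x after the n-th place after the point, read as an integer. mean: average of F over all b^w words. cov b w F h: covariance of F at the first and at the last w digits of a uniform word of w+h digits. variance = cov 0 + 2 (cov 1 + ... + cov (w-1)).
Relation: partial answer to Q1 (the digits of algebraic irrational numbers behave like random digits, here for almost all algebraic numbers, at the places between D log_b H and A log_b H, in the sense of the central limit theorem; e.g. G = X, counts of a digit or word). Nothing is claimed for a single number. The starting file AlmostAllAlgebraicNumbers (of MP_f2f914_nt) has normality up to an error eps log H for almost all x; the exponential sum bound is from the starting files.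
-/

set_option autoImplicit false

namespace Pool.Agent.W5h30.OL.GaussianDigitCounts

open Filter Topology Polynomial
open Pool.Agent.Y933.KD (wd cv mn)

/-- the real algebraic numbers of degree `d` and height at most `H`: the real roots of the
irreducible integral polynomials of degree `d` with all coefficients at most `H` in absolute value -/
def AlgNumbers (d H : ℕ) : Set ℝ :=
  {x | ∃ P : ℤ[X], Irreducible P ∧ P.natDegree = d ∧ (∀ i, |P.coeff i| ≤ H) ∧ aeval x P = 0}

/-- the word of the `w` digits in base `b` of `x` which follow the first `n` digits after the point,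
read as an integer between `0` and `b ^ w - 1` -/
noncomputable def word (b w n : ℕ) (x : ℝ) : ℕ :=
  ⌊(b : ℝ) ^ w * Int.fract ((b : ℝ) ^ n * x)⌋₊

/-- the mean of `F` over the words of `w` digits -/
noncomputable def mean (b w : ℕ) (F : ℕ → ℝ) : ℝ :=
  (∑ c ∈ Finset.range (b ^ w), F c) / (b : ℝ) ^ w

/-- the covariance of the values of `F` at the first `w` digits and at the last `w` digits of a random
word `c` of `w + h` digits -/
noncomputable def cov (b w : ℕ) (F : ℕ → ℝ) (h : ℕ) : ℝ :=
  (∑ c ∈ Finset.range (b ^ (w + h)), (F (c / b ^ h) - mean b w F) * (F (c % b ^ w) - mean b w F)) /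
    (b : ℝ) ^ (w + h)

/-- the asymptotic variance of the sums, for `w = 1` the variance of `F` at a random digit -/
noncomputable def variance (b w : ℕ) (F : ℕ → ℝ) : ℝ :=
  cov b w F 0 + 2 * ∑ h ∈ Finset.Ico 1 w, cov b w F h

/-- Let `d, b ≥ 2`, `w ≥ 1`, let `F` be a function of the words of `w` digits in base `b` with positive
variance, `G` a real polynomial with `1 ≤ deg G < d`, `δ > 0` and `A` arbitrary. Let `N H → ∞`, and for
all large `H` let `b ^ (s H) ≥ H ^ δ` and `b ^ (s H + N H) ≤ H ^ A`. Then the proportion of those `x`
among the (finitely many) real algebraic numbers of degree `d` and height at most `H` for which the sum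
of `F` at the `N H` words of `w` digits of `G(x)` beginning after the places `s H + i`, `i < N H`, is at
most `N H * mean + t √(variance * N H)` tends, for every real `t`, to the value at `t` of the
distribution function of the standard normal distribution. -/
theorem result (d : ℕ) (hd : 2 ≤ d) (b : ℕ) (hb : 2 ≤ b) (w : ℕ) (hw : 1 ≤ w) (F : ℕ → ℝ)
    (hF : 0 < variance b w F) (G : ℝ[X]) (hG1 : 1 ≤ G.natDegree) (hG2 : G.natDegree < d)
    (δ A : ℝ) (hδ : 0 < δ) (s N : ℕ → ℕ) (hN : Tendsto N atTop atTop)
    (hs : ∀ᶠ H : ℕ in atTop, (H : ℝ) ^ δ ≤ (b : ℝ) ^ s H)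
    (hsN : ∀ᶠ H : ℕ in atTop, (b : ℝ) ^ (s H + N H) ≤ (H : ℝ) ^ A) (t : ℝ) :
    (∀ H, (AlgNumbers d H).Finite) ∧
    Tendsto (fun H : ℕ => (({x ∈ AlgNumbers d H |
        ∑ i ∈ Finset.range (N H), F (word b w (s H + i) (G.eval x)) ≤
          N H * mean b w F + t * √(variance b w F * N H)}.ncard : ℕ) : ℝ) /
        ((AlgNumbers d H).ncard : ℝ)) atTop
      (𝓝 ((ProbabilityTheory.gaussianReal 0 1).real (Set.Iic t))) := by
  classical
  obtain ⟨q, rfl⟩ : ∃ q, d = q + 2 := ⟨d - 2, by omega⟩
  have hfin : ∀ H, (AlgNumbers (q + 2) H).Finite := fun H => Pool.Agent.Y933.KG.Alg_finite q H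
  refine ⟨hfin, ?_⟩
  have hbR : (2 : ℝ) ≤ b := by exact_mod_cast hb
  have hbp : (0 : ℝ) < b := by linarith
  have hlogb : 0 < Real.log b := Real.log_pos (by linarith)
  obtain ⟨A', hA'⟩ : ∃ A' : ℝ, A' = max A 0 := ⟨_, rfl⟩
  have hA'0 : 0 ≤ A' := by rw [hA']; exact le_max_right _ _
  have hAA' : A ≤ A' := by rw [hA']; exact le_max_left _ _
  obtain ⟨A1, hA1⟩ : ∃ A1 : ℝ, A1 = A' / Real.log b := ⟨_, rfl⟩
  obtain ⟨K, hK⟩ : ∃ K : ℕ, K = ⌈1 + 1 + A' + A'⌉₊ + 1 := ⟨_, rfl⟩
  have hKr : 1 + 1 + A' + A' ≤ (K : ℝ) := by
    rw [hK]
    push_cast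
    linarith [Nat.le_ceil (1 + 1 + A' + A')]
  obtain ⟨κ, hκ, ρ, hρ, H1, hH1⟩ := Pool.Agent.Y933.KG.alg_hat q K (by omega) δ hδ
  -- the coefficients of `G`
  have hGc : ∀ᶠ H : ℕ in atTop, ∀ i, 1 ≤ i → |G.coeff i| ≤ (H : ℝ) ^ κ := by
    have h1 : ∀ᶠ H : ℕ in atTop, (∑ i ∈ G.support, |G.coeff i|) ≤ (H : ℝ) ^ κ :=
      Pool.Agent.Y933.KD.VdC.ev_le _ κ hκ
    filter_upwards [h1] with H h2 i _
    by_cases hi : i ∈ G.support
    · exact (Finset.single_le_sum (f := fun i => |G.coeff i|) (fun _ _ => abs_nonneg _) hi).trans h2
    · rw [notMem_support_iff.1 hi, abs_zero]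
      positivity
  have hG0 : G ≠ 0 := by
    rintro rfl
    simp at hG1
  have hGl : ∀ᶠ H : ℕ in atTop, (H : ℝ) ^ (-κ) ≤ |G.leadingCoeff| := by
    have h0 : 0 < |G.leadingCoeff| := abs_pos.2 (leadingCoeff_ne_zero.2 hG0)
    have h1 : ∀ᶠ H : ℕ in atTop, 1 / |G.leadingCoeff| ≤ (H : ℝ) ^ κ :=
      Pool.Agent.Y933.KD.VdC.ev_le _ κ hκ
    filter_upwards [h1, eventually_ge_atTop 1] with H h2 h3
    have h4 : (0 : ℝ) < H := by exact_mod_cast h3
    rw [Real.rpow_neg h4.le]
    rw [div_le_iff₀ h0] at h2
    rw [inv_le_iff_one_le_mul₀ (by positivity)]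
    linarith
  let T : ℕ → Finset ℝ := fun H => (hfin H).toFinset
  have hmem : ∀ H x, x ∈ T H ↔ x ∈ AlgNumbers (q + 2) H := fun H x => by
    simp only [T, Set.Finite.mem_toFinset]
  have hF' : 0 < cv b w F 0 + 2 * ∑ h ∈ Finset.Ico 1 w, cv b w F h := hF
  have key := Pool.Agent.W5h30.An.clt_shift hb hw F hF' (A := A1) (K := 1 + 1 + A') (ρ := ρ) hρ (by
      rw [hA1, div_mul_cancel₀ _ hlogb.ne']) T (fun _ x => G.eval x) s N
    (by
      filter_upwards [eventually_ge_atTop H1] with H hH
      obtain ⟨x, hx⟩ := (hH1 H hH).1
      exact ⟨x, (hmem H x).2 hx⟩)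
    (by
      filter_upwards [eventually_ge_atTop H1, hGc, hGl, hs, hsN, eventually_ge_atTop 1] with
        H hH h1 h2 h3 h4 h5 l hl hl2
      have hHR : (1 : ℝ) ≤ H := by exact_mod_cast h5
      have hHp : (0 : ℝ) < H := by linarith
      have hbs : (0 : ℝ) < (b : ℝ) ^ s H := by positivity
      have hl1 : (1 : ℝ) ≤ |(l : ℝ)| := by
        have : (1 : ℤ) ≤ |l| := Int.one_le_abs hl
        exact_mod_cast this
      have hbs2 : (b : ℝ) ^ s H ≤ (H : ℝ) ^ A' := by
        have h6 : (b : ℝ) ^ s H ≤ (b : ℝ) ^ (s H + N H) :=
          pow_le_pow_right₀ (by linarith) (by omega)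
        exact (h6.trans h4).trans (Real.rpow_le_rpow_of_exponent_le hHR hAA')
      refine (hH1 H hH).2 G hG1 (by omega) h1 h2 ((l : ℝ) * (b : ℝ) ^ s H) ?_ ?_ (T H) (hmem H)
      · rw [abs_mul, abs_of_pos hbs]
        nlinarith
      · rw [abs_mul, abs_of_pos hbs]
        calc |(l : ℝ)| * (b : ℝ) ^ s H ≤ (H : ℝ) ^ (1 + 1 + A') * (H : ℝ) ^ A' := by gcongr
          _ = (H : ℝ) ^ (1 + 1 + A' + A') := by rw [← Real.rpow_add hHp]
          _ ≤ _ := Real.rpow_le_rpow_of_exponent_le hHR hKr)
    hN
    (by
      filter_upwards [hsN, eventually_ge_atTop 1] with H h4 h5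
      have hHR : (1 : ℝ) ≤ H := by exact_mod_cast h5
      have hHp : (0 : ℝ) < H := by linarith
      have h6 : (b : ℝ) ^ N H ≤ (b : ℝ) ^ (s H + N H) :=
        pow_le_pow_right₀ (by linarith) (by omega)
      have h7 : (b : ℝ) ^ N H ≤ (H : ℝ) ^ A' :=
        (h6.trans h4).trans (Real.rpow_le_rpow_of_exponent_le hHR hAA')
      have h8 := Real.log_le_log (by positivity) h7
      rw [Real.log_pow, Real.log_rpow hHp] at h8
      rw [hA1, div_mul_eq_mul_div, le_div_iff₀ hlogb]
      exact h8) t
  refine key.congr fun H => ?_
  have e1 : ((AlgNumbers (q + 2) H).ncard : ℝ) = (T H).card := by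
    rw [← Set.ncard_coe_finset]
    congr 2
    ext x
    rw [Finset.mem_coe, hmem]
  have e2 : ({x ∈ AlgNumbers (q + 2) H |
        ∑ i ∈ Finset.range (N H), F (word b w (s H + i) (G.eval x)) ≤
          N H * mean b w F + t * √(variance b w F * N H)}.ncard : ℕ) =
      ((T H).filter (fun x => ∑ i ∈ Finset.range (N H), F (wd b w (s H + i) (G.eval x)) -
        N H * mn b w F ≤ t * √((cv b w F 0 + 2 * ∑ h ∈ Finset.Ico 1 w, cv b w F h) * N H))).card := by
    rw [← Set.ncard_coe_finset]
    congr 1
    ext x
    rw [Finset.mem_coe, Finset.mem_filter, hmem]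
    simp only [Set.mem_ofPred_eq]
    refine and_congr_right fun _ => ?_
    constructor
    · intro h
      rw [sub_le_iff_le_add']
      exact h
    · intro h
      rw [sub_le_iff_le_add'] at h
      exact h
  rw [e1, e2]

end Pool.Agent.W5h30.OL.GaussianDigitCounts
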