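import Pool.Agent.W5h30.An.Tot
import Pool.Agent.W5h30.An.Pol

/-!
# The central limit theorem for the digits of `e ^ (a / q)`, `π ^ (a / q)`, `2 ^ (a / q)`

Let `g` be a real analytic function on a neighbourhood of `[u, v]` which is not a polynomial, for
instance `g(t) = x ^ t` with `x = e`, `π` or `2` (then `e`, `π` and `√2` are among the values of `g` at
rational points). Fix a base `b` and a function `F` of the words of `w` digits, for instance the
indicator function of one word, or the digit itself. For a random integer `a` with `u ≤ a / q ≤ v` the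
sum of the values of `F` at the words which begin at `N(q)` consecutive places between the places
`δ log_b q` and `A log_b q` of `g(a / q)` is asymptotically normal when `q → ∞` and `N(q) → ∞`, with the
mean and the variance which belong to a random real number. For instance the number of ones among the
binary digits of `e ^ (a / q)` at these places is `N / 2 + X √N / 2` with `X` asymptotically standard
normal. The same holds for `ω g(a / q) + R(a)`, where `ω = ω(q)` is a real number with
`1 ≤ |ω| ≤ q ^ W` and `R = R(q)` is a real polynomial of bounded degree. The numbers `δ > 0` and `A`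
are arbitrary. No hypothesis is assumed.
-/

/-!
Library file (not a hand-in). Description:

Proves: Let g be real analytic near [u,v], u < v, not a polynomial on [u,v]; b >= 2, w >= 1, F a real function of the words of w base-b digits with positive variance; D > 0; A, W, d given. If N(q) -> infinity and for all large q: 1 <= |r_q| <= q^W, R_q is a real polynomial of degree <= d, b^(s(q)) >= q^D, b^(s(q)+N(q)) <= q^A, then the proportion of the integers a with u <= a/q <= v for which the sum of F over the w-digit words of r_q g(a/q) + R_q(a) starting after the places s(q)+i, 0 <= i < N(q), is at most N(q) mean + t sqrt(variance N(q)) tends, for every real t, to the standard normal distribution function at t.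
Definitions: word b w n x: the w base-b digits of x after the n-th place after the point, read as an integer. mean: average of F over all b^w words. cov b w F h: covariance of F at the first and at the last w digits of a uniform word of w+h digits. variance = cov 0 + 2 (cov 1 + ... + cov (w-1)).
Relation: partial answer to Q1. For g(t) = 2^t and more generally x^t, x > 0 rational, x not 1, the numbers 2^(a/q) are irrational algebraic (of degree q for most a): the counts of digits and words in a random member of this family at the places between D log_b q and A log_b q obey the central limit theorem of random digits; also for e^(a/q), pi^(a/q). My hand-in ValuesAtRationals (MP_7e9a3a_nt) has frequencies up to eps log q for almost all a, not the Gaussian law. Nothing is claimed for a single number. Unconditional.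
-/

set_option autoImplicit false

namespace Pool.Agent.W5h30.OL.GaussianValues

open Filter Topology Polynomial
open Pool.Agent.Y933.KD (wd cv mn)

/-- the word of the `w` digits in base `b` of `x` which follow the first `n` digits after the point,
read as an integer between `0` and `b ^ w - 1` -/
noncomputable def word (b w n : ℕ) (x : ℝ) : ℕ :=
  ⌊(b : ℝ) ^ w * Int.fract ((b : ℝ) ^ n * x)⌋₊

/-- the mean of `F` over the words of `w` digits -/
noncomputable def mean (b w : ℕ) (F : ℕ → ℝ) : ℝ :=
  (∑ c ∈ Finset.range (b ^ w), F c) / (b : ℝ) ^ w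

/-- the covariance of the values of `F` at the first `w` digits and at the last `w` digits of a random
word `c` of `w + h` digits -/
noncomputable def cov (b w : ℕ) (F : ℕ → ℝ) (h : ℕ) : ℝ :=
  (∑ c ∈ Finset.range (b ^ (w + h)), (F (c / b ^ h) - mean b w F) * (F (c % b ^ w) - mean b w F)) /
    (b : ℝ) ^ (w + h)

/-- the asymptotic variance of the sums, for `w = 1` the variance of `F` at a random digit -/
noncomputable def variance (b w : ℕ) (F : ℕ → ℝ) : ℝ :=
  cov b w F 0 + 2 * ∑ h ∈ Finset.Ico 1 w, cov b w F h

/-- Let `g` be real analytic on a neighbourhood of `[u, v]`, `u < v`, and not a polynomial on `[u, v]`.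
Let `b ≥ 2`, `w ≥ 1`, let `F` be a function of the words of `w` digits in base `b` with positive
variance, `δ > 0`, and let `A`, `W`, `d` be arbitrary. For all large `q` let `1 ≤ |ω q| ≤ q ^ W`, let
`R q` be a real polynomial of degree at most `d`, `b ^ (s q) ≥ q ^ δ` and `b ^ (s q + N q) ≤ q ^ A`, and
let `N q → ∞`. Then the proportion of those `a` among the integers `a` with `u ≤ a / q ≤ v` for which
the sum of `F` at the `N q` words of `w` digits of `ω g(a / q) + R(a)` beginning after the places
`s q + i`, `i < N q`, is at most `N q * mean + t √(variance * N q)` tends, for every real `t`, to the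
value at `t` of the distribution function of the standard normal distribution. -/
theorem result (g : ℝ → ℝ) (u v : ℝ) (huv : u < v) (hg : AnalyticOnNhd ℝ g (Set.Icc u v))
    (hpol : ∀ P : ℝ[X], ∃ t ∈ Set.Icc u v, g t ≠ P.eval t) (b : ℕ) (hb : 2 ≤ b) (w : ℕ) (hw : 1 ≤ w)
    (F : ℕ → ℝ) (hF : 0 < variance b w F) (d : ℕ) (δ A W : ℝ) (hδ : 0 < δ) (ω : ℕ → ℝ)
    (hω : ∀ᶠ q : ℕ in atTop, 1 ≤ |ω q| ∧ |ω q| ≤ (q : ℝ) ^ W) (R : ℕ → ℝ[X])
    (hR : ∀ᶠ q : ℕ in atTop, (R q).natDegree ≤ d) (s N : ℕ → ℕ) (hN : Tendsto N atTop atTop)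
    (hs : ∀ᶠ q : ℕ in atTop, (q : ℝ) ^ δ ≤ (b : ℝ) ^ s q)
    (hsN : ∀ᶠ q : ℕ in atTop, (b : ℝ) ^ (s q + N q) ≤ (q : ℝ) ^ A) (t : ℝ) :
    Tendsto (fun q : ℕ => (({a : ℤ | u ≤ (a : ℝ) / q ∧ (a : ℝ) / q ≤ v ∧
        ∑ i ∈ Finset.range (N q), F (word b w (s q + i)
          (ω q * g ((a : ℝ) / q) + (R q).eval (a : ℝ))) ≤
          N q * mean b w F + t * √(variance b w F * N q)}.ncard : ℕ) : ℝ) /
        (({a : ℤ | u ≤ (a : ℝ) / q ∧ (a : ℝ) / q ≤ v}.ncard : ℕ) : ℝ)) atTop
      (𝓝 ((ProbabilityTheory.gaussianReal 0 1).real (Set.Iic t))) := by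
  classical
  have hbR : (2 : ℝ) ≤ b := by exact_mod_cast hb
  have hbp : (0 : ℝ) < b := by linarith
  have hlogb : 0 < Real.log b := Real.log_pos (by linarith)
  obtain ⟨A', hA'⟩ : ∃ A' : ℝ, A' = max A 0 := ⟨_, rfl⟩
  have hA'0 : 0 ≤ A' := by rw [hA']; exact le_max_right _ _
  have hAA' : A ≤ A' := by rw [hA']; exact le_max_left _ _
  obtain ⟨A1, hA1⟩ : ∃ A1 : ℝ, A1 = A' / Real.log b := ⟨_, rfl⟩
  obtain ⟨ρ, hρ, H1, hH1⟩ := Pool.Agent.W5h30.An.sum_TT huv hg
    (Pool.Agent.W5h30.An.not_poly hg hpol) d (W + (1 + 1 + A') + A') hδ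
  have hF' : 0 < cv b w F 0 + 2 * ∑ h ∈ Finset.Ico 1 w, cv b w F h := hF
  have key := Pool.Agent.W5h30.An.clt_shift hb hw F hF' (A := A1) (K := 1 + 1 + A') (ρ := ρ) hρ (by
      rw [hA1, div_mul_cancel₀ _ hlogb.ne']) (Pool.Agent.W5h30.An.TT u v)
    (fun q a => ω q * g ((a : ℝ) / q) + (R q).eval (a : ℝ)) s N
    (by
      filter_upwards [eventually_ge_atTop H1] with q hq
      exact (hH1 q hq).1)
    (by
      filter_upwards [eventually_ge_atTop H1, hω, hR, hs, hsN, eventually_ge_atTop 1] with
        q hq h1 h2 h3 h4 h5 l hl hl2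
      have hHR : (1 : ℝ) ≤ q := by exact_mod_cast h5
      have hHp : (0 : ℝ) < q := by linarith
      have hbs : (0 : ℝ) < (b : ℝ) ^ s q := by positivity
      have hl1 : (1 : ℝ) ≤ |(l : ℝ)| := by
        have : (1 : ℤ) ≤ |l| := Int.one_le_abs hl
        exact_mod_cast this
      have hbs2 : (b : ℝ) ^ s q ≤ (q : ℝ) ^ A' := by
        have h6 : (b : ℝ) ^ s q ≤ (b : ℝ) ^ (s q + N q) :=
          pow_le_pow_right₀ (by linarith) (by omega)
        exact (h6.trans h4).trans (Real.rpow_le_rpow_of_exponent_le hHR hAA')
      have key2 := (hH1 q hq).2 ((l : ℝ) * (b : ℝ) ^ s q * ω q)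
        (Polynomial.C ((l : ℝ) * (b : ℝ) ^ s q) * R q) ((natDegree_C_mul_le _ _).trans h2)
        (by
          rw [abs_mul, abs_mul, abs_of_pos hbs]
          calc (q : ℝ) ^ δ ≤ (b : ℝ) ^ s q := h3
            _ = 1 * (b : ℝ) ^ s q * 1 := by ring
            _ ≤ |(l : ℝ)| * (b : ℝ) ^ s q * |ω q| := by
                gcongr
                exact h1.1)
        (by
          rw [abs_mul, abs_mul, abs_of_pos hbs]
          calc |(l : ℝ)| * (b : ℝ) ^ s q * |ω q| ≤
              (q : ℝ) ^ (1 + 1 + A') * (q : ℝ) ^ A' * (q : ℝ) ^ W := by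
                gcongr
                exact h1.2
            _ = (q : ℝ) ^ (W + (1 + 1 + A') + A') := by
                rw [← Real.rpow_add hHp, ← Real.rpow_add hHp]
                congr 1
                ring)
      refine le_trans (le_of_eq ?_) key2
      congr 1
      refine Finset.sum_congr rfl fun a _ => ?_
      congr 1
      rw [Polynomial.eval_mul, Polynomial.eval_C]
      ring)
    hN
    (by
      filter_upwards [hsN, eventually_ge_atTop 1] with q h4 h5
      have hHR : (1 : ℝ) ≤ q := by exact_mod_cast h5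
      have hHp : (0 : ℝ) < q := by linarith
      have h6 : (b : ℝ) ^ N q ≤ (b : ℝ) ^ (s q + N q) :=
        pow_le_pow_right₀ (by linarith) (by omega)
      have h7 : (b : ℝ) ^ N q ≤ (q : ℝ) ^ A' :=
        (h6.trans h4).trans (Real.rpow_le_rpow_of_exponent_le hHR hAA')
      have h8 := Real.log_le_log (by positivity) h7
      rw [Real.log_pow, Real.log_rpow hHp] at h8
      rw [hA1, div_mul_eq_mul_div, le_div_iff₀ hlogb]
      exact h8) t
  refine key.congr' ?_
  filter_upwards [eventually_ge_atTop 1] with q hq1
  have hqp : (0 : ℝ) < q := by exact_mod_cast hq1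
  have hmem : ∀ a : ℤ, a ∈ Pool.Agent.W5h30.An.TT u v q ↔ u ≤ (a : ℝ) / q ∧ (a : ℝ) / q ≤ v := by
    intro a
    unfold Pool.Agent.W5h30.An.TT
    rw [Finset.mem_Icc, Int.ceil_le, Int.le_floor, le_div_iff₀ hqp, div_le_iff₀ hqp]
  have e1 : (({a : ℤ | u ≤ (a : ℝ) / q ∧ (a : ℝ) / q ≤ v}.ncard : ℕ) : ℝ) =
      (Pool.Agent.W5h30.An.TT u v q).card := by
    have h9 : {a : ℤ | u ≤ (a : ℝ) / q ∧ (a : ℝ) / q ≤ v} =
        ((Pool.Agent.W5h30.An.TT u v q : Finset ℤ) : Set ℤ) := by
      ext a
      rw [Finset.mem_coe, hmem]
      rfl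
    rw [h9, Set.ncard_coe_finset]
  have e2 : ({a : ℤ | u ≤ (a : ℝ) / q ∧ (a : ℝ) / q ≤ v ∧
        ∑ i ∈ Finset.range (N q), F (word b w (s q + i)
          (ω q * g ((a : ℝ) / q) + (R q).eval (a : ℝ))) ≤
          N q * mean b w F + t * √(variance b w F * N q)}.ncard : ℕ) =
      ((Pool.Agent.W5h30.An.TT u v q).filter (fun a : ℤ => ∑ i ∈ Finset.range (N q),
        F (wd b w (s q + i) (ω q * g ((a : ℝ) / q) + (R q).eval (a : ℝ))) -
        N q * mn b w F ≤ t * √((cv b w F 0 + 2 * ∑ h ∈ Finset.Ico 1 w, cv b w F h) * N q))).card := by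
    rw [← Set.ncard_coe_finset]
    congr 1
    ext a
    rw [Finset.mem_coe, Finset.mem_filter, hmem]
    simp only [Set.mem_ofPred_eq]
    rw [and_assoc]
    refine and_congr_right fun _ => and_congr_right fun _ => ?_
    constructor
    · intro h
      rw [sub_le_iff_le_add']
      exact h
    · intro h
      rw [sub_le_iff_le_add'] at h
      exact h
  rw [e1, e2]

end Pool.Agent.W5h30.OL.GaussianValues
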