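import Mathlib
import Pool.Agent.W5h30.MU.AlgMult
import Pool.Agent.W5h30.MU.Rel

/-!
# The joint law of the digits of the multiples of an independent tuple of algebraic numbers

Let `α_1, …, α_r` be real algebraic numbers such that `1, α_1, …, α_r` are linearly independent over `ℚ`.
Consider `n` windows of digits: the `i`-th window reads a word of the number `α_{σ i}`, in a base
`b_i ≤ B`, at the places after the place `s_i ≤ A log M`; it has `K_i` possible values. For a random
multiple `m (α_1, …, α_r)`, `1 ≤ m ≤ M`, the words in the `n` windows are jointly uniformly distributed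
up to `M^-c` in total variation, if `K_1 ⋯ K_n ≤ M^(1-ε)` and the windows satisfy no relation
`∑ k_i b_i ^ s_i = 0` with `|k_i| ≤ M^ε K_i` (for instance if the windows of the same number are
separated). Both conditions are sharp: if `K_1 ⋯ K_n ≥ M^(1+ε)`, or if the windows satisfy a relation with
`|k_i| ≤ M^-ε K_i`, then the law of the words is singular: a proportion `M^-c` of the words carries it.
-/

set_option autoImplicit false

namespace Pool.Agent.W5h30.OL.MultiplesSharpCutoff

open Finset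

/-- The integer part of `K {b ^ s y}`; for `K = b ^ N` this is the word of the digits in base `b` of `y`
at the places `s + 1, ..., s + N` after the point. -/
noncomputable def word (b s K : ℕ) (y : ℝ) : ℕ := ⌊(K : ℝ) * Int.fract ((b : ℝ) ^ s * y)⌋₊

/-- The windows of the same number are separated: one ends, by a factor `X`, before the other begins. -/
def Separated {r n : ℕ} (σ : Fin n → Fin r) (b s K : Fin n → ℕ) (X : ℝ) : Prop :=
  ∀ i i', i ≠ i' → σ i = σ i' → (b i : ℝ) ^ (s i) * K i * X ≤ (b i' : ℝ) ^ (s i') ∨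
    (b i' : ℝ) ^ (s i') * K i' * X ≤ (b i : ℝ) ^ (s i)

/-- There is no small relation between the scales of the windows of the same number: for all integers
`k_i`, not all zero, with `|k_i| ≤ X K_i`, some sum `∑ k_i b_i ^ s_i` over the windows `i` of one of
the numbers is not zero. -/
def Free {r n : ℕ} (σ : Fin n → Fin r) (b s K : Fin n → ℕ) (X : ℝ) : Prop :=
  ∀ k : Fin n → ℤ, k ≠ 0 → (∀ i, |(k i : ℝ)| ≤ X * K i) →
    ∃ j, ∑ i with σ i = j, k i * (b i : ℤ) ^ (s i) ≠ 0

/-- **Main theorem.** -/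
theorem result {r n : ℕ} (α : Fin r → ℝ) (halg : ∀ j, IsAlgebraic ℚ (α j))
    (hind : ∀ (c : Fin r → ℚ) (c0 : ℚ), ∑ j, c j * α j + c0 = 0 → c = 0)
    (σ : Fin n → Fin r) (B : ℕ) (A ε : ℝ) (hε : 0 < ε) :
    ∃ c : ℝ, 0 < c ∧ ∃ M0 : ℕ, ∀ M : ℕ, M0 ≤ M → ∀ b s K : Fin n → ℕ,
      (∀ i, 2 ≤ b i ∧ b i ≤ B ∧ (s i : ℝ) ≤ A * Real.log M ∧ 1 ≤ K i) →
      (∏ i, (K i : ℝ) ≤ (M : ℝ) ^ (1 - ε) →
        (Separated σ b s K ((M : ℝ) ^ ε) ∨ Free σ b s K ((M : ℝ) ^ ε)) →
        ∀ y : Fin n → ℝ, ∀ E : Set (Fin n → ℕ), E ⊆ {w | ∀ i, w i < K i} →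
        |({m : ℕ | m ∈ Set.Icc 1 M ∧ (fun i => word (b i) (s i) (K i) (m * α (σ i) + y i)) ∈ E}.ncard : ℝ) / M -
          (E.ncard : ℝ) / ∏ i, (K i : ℝ)| ≤ (M : ℝ) ^ (-c)) ∧
      ((M : ℝ) ^ (1 + ε) ≤ ∏ i, (K i : ℝ) ∨ ¬ Free σ b s K ((M : ℝ) ^ (-ε)) →
        ∀ y : Fin n → ℝ, ∃ E : Set (Fin n → ℕ),
        E ⊆ {w | ∀ i, w i < K i} ∧ (E.ncard : ℝ) / ∏ i, (K i : ℝ) ≤ (M : ℝ) ^ (-c) ∧
        ∀ m ∈ Set.Icc 1 M, (fun i => word (b i) (s i) (K i) (m * α (σ i) + y i)) ∈ E) := by
  classical
  obtain ⟨ε', hε'⟩ : ∃ ε' : ℝ, ε' = min ε 1 / 2 := ⟨_, rfl⟩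
  have hε'0 : 0 < ε' := by rw [hε']; have := lt_min hε one_pos; positivity
  have hε'1 : ε' ≤ 1 := by rw [hε']; have := min_le_right ε 1; linarith
  have hε'e : 2 * ε' ≤ ε := by rw [hε']; have := min_le_left ε 1; linarith
  obtain ⟨c1, hc1, M1, hlaw⟩ := Pool.Agent.W5h30.MU.alg_mult (fun i => α (σ i)) (fun i => halg _)
    (max B 2) (le_max_right _ _) A ε' hε'0 hε'1
  refine ⟨min c1 (ε / 2), lt_min hc1 (by positivity), ?_⟩
  have hev : ∀ᶠ M : ℕ in Filter.atTop, (n : ℝ) + 1 ≤ (M : ℝ) ^ ε' ∧ M1 ≤ M ∧ 1 ≤ M ∧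
      6 * (n : ℝ) + 3 ≤ (M : ℝ) ^ (ε / 2) := by
    filter_upwards [Pool.Agent.W5h30.MU.ev_rpow' ((n : ℝ) + 1) ε' hε'0, Filter.eventually_ge_atTop M1,
      Filter.eventually_ge_atTop 1, Pool.Agent.W5h30.MU.ev_rpow' (6 * (n : ℝ) + 3) (ε / 2) (by positivity)]
      with M a b c d
    exact ⟨a, b, c, d⟩
  obtain ⟨M0, hM0⟩ := Filter.eventually_atTop.1 hev
  refine ⟨M0, fun M hM b s K hbs => ?_⟩
  obtain ⟨g1, g2, g3, g4⟩ := hM0 M hM
  have hMR : (1 : ℝ) ≤ M := by exact_mod_cast g3
  have hMpos : (0 : ℝ) < M := by linarith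
  have hKpos : ∀ i, 1 ≤ K i := fun i => (hbs i).2.2.2
  have hKprod : 0 < ∏ i, (K i : ℝ) := prod_pos fun i _ => by exact_mod_cast hKpos i
  have hcell : ∀ (m : ℕ) (y : Fin n → ℝ) (i : Fin n), word (b i) (s i) (K i) (((m + 1 : ℕ) : ℝ) * α (σ i) + y i) =
      Pool.Agent.W5h30.SM.cell (K i) (m * ((b i : ℝ) ^ (s i) * α (σ i)) + (b i : ℝ) ^ (s i) * (α (σ i) + y i)) := by
    intro m y i
    unfold word Pool.Agent.W5h30.SM.cell
    congr 3
    push_cast
    ring
  have hlt : ∀ (m : ℕ) (y : Fin n → ℝ) (i : Fin n), word (b i) (s i) (K i) (m * α (σ i) + y i) < K i := by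
    intro m y i
    have hK0 : (0 : ℝ) < K i := by exact_mod_cast hKpos i
    unfold word
    rw [Nat.floor_lt (mul_nonneg hK0.le (Int.fract_nonneg _))]
    have := mul_lt_mul_of_pos_left (Int.fract_lt_one ((b i : ℝ) ^ (s i) * (m * α (σ i) + y i))) hK0
    linarith
  refine ⟨fun hprod hfree y E hE => ?_, fun hprod y => ?_⟩
  · have hprod' : ∏ i, (K i : ℝ) ≤ (M : ℝ) ^ (1 - ε') :=
      hprod.trans (Real.rpow_le_rpow_of_exponent_le hMR (by linarith))
    -- there is no relation
    have hfree' : Free σ b s K ((M : ℝ) ^ ε') := by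
      rcases hfree with hsep | hfree
      · intro k hk hkle
        obtain ⟨i0, hi0, hmax⟩ : ∃ i0, k i0 ≠ 0 ∧ ∀ i, k i ≠ 0 → (b i : ℝ) ^ (s i) ≤ (b i0 : ℝ) ^ (s i0) := by
          have hne : (univ.filter fun i => k i ≠ 0).Nonempty := by
            obtain ⟨i, hi⟩ := Function.ne_iff.1 hk
            exact ⟨i, mem_filter.2 ⟨mem_univ _, hi⟩⟩
          obtain ⟨i0, h1, h2⟩ := exists_max_image (univ.filter fun i => k i ≠ 0)
            (fun i => (b i : ℝ) ^ (s i)) hne
          exact ⟨i0, (mem_filter.1 h1).2, fun i hi => h2 i (mem_filter.2 ⟨mem_univ _, hi⟩)⟩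
        refine ⟨σ i0, fun h0 => ?_⟩
        have hmem : i0 ∈ univ.filter (fun i => σ i = σ i0) := mem_filter.2 ⟨mem_univ _, rfl⟩
        rw [← add_sum_erase _ _ hmem] at h0
        have h0R : (k i0 : ℝ) * (b i0 : ℝ) ^ (s i0) =
            -∑ i ∈ (univ.filter (fun i => σ i = σ i0)).erase i0, (k i : ℝ) * (b i : ℝ) ^ (s i) := by
          have : ((k i0 * (b i0 : ℤ) ^ (s i0) +
            ∑ i ∈ (univ.filter (fun i => σ i = σ i0)).erase i0, k i * (b i : ℤ) ^ (s i) : ℤ) : ℝ) = 0 := by
            exact_mod_cast h0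
          push_cast at this
          linarith
        have hb0 : (0 : ℝ) < (b i0 : ℝ) ^ (s i0) := by
          have := (hbs i0).1
          positivity
        have hterm : ∀ i ∈ (univ.filter (fun i => σ i = σ i0)).erase i0,
            |(k i : ℝ) * (b i : ℝ) ^ (s i)| ≤ (b i0 : ℝ) ^ (s i0) / (M : ℝ) ^ ε' := by
          intro i hi
          rw [mem_erase, mem_filter] at hi
          by_cases hki : k i = 0
          · rw [hki]
            simp only [Int.cast_zero, zero_mul, abs_zero]
            positivity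
          have hKi : (1 : ℝ) ≤ K i := by exact_mod_cast hKpos i
          have hKi0 : (1 : ℝ) ≤ K i0 := by exact_mod_cast hKpos i0
          have hbi : (0 : ℝ) < (b i : ℝ) ^ (s i) := by
            have := (hbs i).1
            positivity
          have hMe : (n : ℝ) + 1 ≤ (M : ℝ) ^ ε :=
            g1.trans (Real.rpow_le_rpow_of_exponent_le hMR (by linarith))
          have hn0 : (0 : ℝ) ≤ n := Nat.cast_nonneg n
          have h1 : (b i : ℝ) ^ (s i) * K i * (M : ℝ) ^ ε ≤ (b i0 : ℝ) ^ (s i0) := by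
            rcases hsep i i0 hi.1 hi.2.2 with h | h
            · exact h
            · exfalso
              have h2 := hmax i hki
              have h3 : 1 < (M : ℝ) ^ ε := by
                have h4 : 1 < n := by
                  by_contra hcon
                  push Not at hcon
                  have : i = i0 := by
                    have := i.isLt
                    have := i0.isLt
                    ext
                    omega
                  exact hi.1 this
                have h5 : (1 : ℝ) < n := by exact_mod_cast h4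
                linarith
              have h4 : (b i0 : ℝ) ^ (s i0) < (b i0 : ℝ) ^ (s i0) * K i0 * (M : ℝ) ^ ε := by
                have h5 : (b i0 : ℝ) ^ (s i0) ≤ (b i0 : ℝ) ^ (s i0) * K i0 := by nlinarith
                have h6 : 0 < (b i0 : ℝ) ^ (s i0) * K i0 := by positivity
                nlinarith
              linarith
          rw [abs_mul, abs_of_pos hbi, le_div_iff₀ (by positivity)]
          calc |(k i : ℝ)| * (b i : ℝ) ^ (s i) * (M : ℝ) ^ ε'
              ≤ ((M : ℝ) ^ ε' * K i) * (b i : ℝ) ^ (s i) * (M : ℝ) ^ ε' := by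
                have := hkle i
                gcongr
            _ = (b i : ℝ) ^ (s i) * K i * (M : ℝ) ^ (ε' + ε') := by
                rw [Real.rpow_add hMpos]
                ring
            _ ≤ (b i : ℝ) ^ (s i) * K i * (M : ℝ) ^ ε := by
                have : (M : ℝ) ^ (ε' + ε') ≤ (M : ℝ) ^ ε :=
                  Real.rpow_le_rpow_of_exponent_le hMR (by linarith)
                gcongr
            _ ≤ _ := h1
        have h2 : |(k i0 : ℝ) * (b i0 : ℝ) ^ (s i0)| ≤ n * ((b i0 : ℝ) ^ (s i0) / (M : ℝ) ^ ε') := by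
          rw [h0R, abs_neg]
          refine (abs_sum_le_sum_abs _ _).trans ((sum_le_sum hterm).trans ?_)
          rw [sum_const, nsmul_eq_mul]
          have h3 : (((univ.filter (fun i => σ i = σ i0)).erase i0).card : ℝ) ≤ n := by
            have h4 : ((univ.filter (fun i => σ i = σ i0)).erase i0).card ≤ (univ : Finset (Fin n)).card :=
              card_le_card (subset_univ _)
            rw [card_univ, Fintype.card_fin] at h4
            exact_mod_cast h4
          gcongr
        have h3 : (b i0 : ℝ) ^ (s i0) ≤ |(k i0 : ℝ) * (b i0 : ℝ) ^ (s i0)| := by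
          rw [abs_mul, abs_of_pos hb0]
          have : (1 : ℝ) ≤ |(k i0 : ℝ)| := by exact_mod_cast Int.one_le_abs hi0
          nlinarith
        have h4 : (n : ℝ) * ((b i0 : ℝ) ^ (s i0) / (M : ℝ) ^ ε') < (b i0 : ℝ) ^ (s i0) := by
          have hMe : (0 : ℝ) < (M : ℝ) ^ ε' := by positivity
          rw [mul_div_assoc', div_lt_iff₀ hMe]
          nlinarith
        linarith
      · intro k hk hkle
        refine hfree k hk fun i => (hkle i).trans ?_
        have : (M : ℝ) ^ ε' ≤ (M : ℝ) ^ ε := Real.rpow_le_rpow_of_exponent_le hMR (by linarith)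
        gcongr
    -- apply the library
    obtain ⟨Ef, hEf⟩ : ∃ Ef : Finset (Fin n → ℕ), Ef = (Fintype.piFinset fun i => range (K i)).filter (fun w => w ∈ E) :=
      ⟨_, rfl⟩
    have hEf' : ∀ w, w ∈ Ef ↔ w ∈ E := by
      intro w
      rw [hEf, mem_filter, Fintype.mem_piFinset]
      exact ⟨fun h => h.2, fun h => ⟨fun i => mem_range.2 (hE h i), h⟩⟩
    have hEcoe : E = (Ef : Set (Fin n → ℕ)) := by
      ext w
      rw [mem_coe, hEf']
    have h1 := hlaw M g2 b s K (fun i => ⟨(hbs i).1, (hbs i).2.1.trans (le_max_left _ _)⟩)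
      (fun i => (hbs i).2.2.1) hKpos hprod' (fun k hk hkle p h0 => by
        obtain ⟨j, hj⟩ := hfree' k hk (fun i => by rw [mul_comm]; exact hkle i)
        have h2 := hind (fun j => ((∑ i with σ i = j, k i * (b i : ℤ) ^ (s i) : ℤ) : ℚ)) (-(p : ℚ)) (by
          have h3 : ∑ i, (k i : ℝ) * ((b i : ℝ) ^ (s i) * α (σ i)) =
              ∑ j, ((∑ i with σ i = j, k i * (b i : ℤ) ^ (s i) : ℤ) : ℝ) * α j := by
            rw [← sum_fiberwise (s := univ) (g := σ)]
            refine sum_congr rfl fun j _ => ?_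
            push_cast
            rw [sum_mul]
            refine sum_congr rfl fun i hi => ?_
            rw [(mem_filter.1 hi).2]
            ring
          rw [h3] at h0
          push_cast at h0 ⊢
          linarith)
        have h4 := congrFun h2 j
        simp only [Pi.zero_apply] at h4
        exact hj (by exact_mod_cast h4))
      (fun i => (b i : ℝ) ^ (s i) * (α (σ i) + y i)) Ef (fun w hw i => hE ((hEf' w).1 hw) i)
    have h2 : {m : ℕ | m ∈ Set.Icc 1 M ∧ (fun i => word (b i) (s i) (K i) (m * α (σ i) + y i)) ∈ E}.ncard =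
        ((range M).filter (fun m : ℕ => (fun j => Pool.Agent.W5h30.SM.cell (K j)
          (m * ((b j : ℝ) ^ (s j) * α (σ j)) + (b j : ℝ) ^ (s j) * (α (σ j) + y j))) ∈ Ef)).card := by
      have h3 : {m : ℕ | m ∈ Set.Icc 1 M ∧ (fun i => word (b i) (s i) (K i) (m * α (σ i) + y i)) ∈ E} =
          (fun m => m + 1) '' (((range M).filter (fun m : ℕ => (fun j => Pool.Agent.W5h30.SM.cell (K j)
          (m * ((b j : ℝ) ^ (s j) * α (σ j)) + (b j : ℝ) ^ (s j) * (α (σ j) + y j))) ∈ Ef) : Finset ℕ) : Set ℕ) := by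
        ext m
        constructor
        · rintro ⟨h4, h5⟩
          refine ⟨m - 1, ?_, by have := h4.1; simp only; omega⟩
          rw [mem_coe, mem_filter, mem_range]
          refine ⟨by have := h4.1; have := h4.2; omega, ?_⟩
          rw [hEf']
          have h6 : m = (m - 1) + 1 := by have := h4.1; omega
          rw [h6] at h5
          have h7 : (fun i => word (b i) (s i) (K i) (((m - 1 + 1 : ℕ) : ℝ) * α (σ i) + y i)) = fun j =>
              Pool.Agent.W5h30.SM.cell (K j) ((m - 1 : ℕ) * ((b j : ℝ) ^ (s j) * α (σ j)) +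
                (b j : ℝ) ^ (s j) * (α (σ j) + y j)) := funext fun i => hcell (m - 1) y i
          rw [← h7]
          exact h5
        · rintro ⟨m', h4, rfl⟩
          rw [mem_coe, mem_filter, mem_range, hEf'] at h4
          refine ⟨⟨by simp, by simp only; omega⟩, ?_⟩
          have h7 : (fun i => word (b i) (s i) (K i) (((m' + 1 : ℕ) : ℝ) * α (σ i) + y i)) = fun j =>
              Pool.Agent.W5h30.SM.cell (K j) ((m' : ℕ) * ((b j : ℝ) ^ (s j) * α (σ j)) +
                (b j : ℝ) ^ (s j) * (α (σ j) + y j)) := funext fun i => hcell m' y i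
          simp only
          rw [h7]
          exact h4.2
      rw [h3, Set.ncard_image_of_injective _ (add_left_injective 1), Set.ncard_coe_finset]
    rw [h2, hEcoe, Set.ncard_coe_finset]
    exact h1.trans (Real.rpow_le_rpow_of_exponent_le hMR (by linarith [min_le_left c1 (ε / 2)]))
  · rcases hprod with hprod | hrel
    · refine ⟨(fun m : ℕ => (fun i => word (b i) (s i) (K i) (m * α (σ i) + y i))) '' Set.Icc 1 M, ?_, ?_, ?_⟩
      · rintro _ ⟨m, _, rfl⟩ i
        exact hlt m y i
      · rw [div_le_iff₀ hKprod]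
        have h1 : ((fun m : ℕ => (fun i => word (b i) (s i) (K i) (m * α (σ i) + y i))) '' Set.Icc 1 M).ncard ≤ M := by
          refine (Set.ncard_image_le (Set.finite_Icc 1 M)).trans ?_
          rw [Set.ncard_eq_toFinset_card', Set.toFinset_Icc, Nat.card_Icc]
          omega
        calc (((fun m : ℕ => (fun i => word (b i) (s i) (K i) (m * α (σ i) + y i))) '' Set.Icc 1 M).ncard : ℝ)
            ≤ M := by exact_mod_cast h1
          _ = (M : ℝ) ^ (-ε) * (M : ℝ) ^ (1 + ε) := by
              rw [← Real.rpow_add hMpos]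
              ring_nf
              rw [Real.rpow_one]
          _ ≤ (M : ℝ) ^ (-(min c1 (ε / 2))) * ∏ i, (K i : ℝ) := by
              have h2 : (M : ℝ) ^ (-ε) ≤ (M : ℝ) ^ (-(min c1 (ε / 2))) :=
                Real.rpow_le_rpow_of_exponent_le hMR (by linarith [min_le_right c1 (ε / 2)])
              gcongr
      · intro m hm
        exact ⟨m, hm, rfl⟩
    · -- a relation between the windows
      unfold Free at hrel
      push Not at hrel
      obtain ⟨k, hk, hkle, hk0⟩ := hrel
      obtain ⟨θ, hθ⟩ : ∃ θ : ℝ, θ = ∑ i, (k i : ℝ) * ((b i : ℝ) ^ (s i) * y i) := ⟨_, rfl⟩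
      obtain ⟨δ, hδ⟩ : ∃ δ : ℝ, δ = n * (M : ℝ) ^ (-ε) := ⟨_, rfl⟩
      have hMe2 : (M : ℝ) ^ (-ε) * (M : ℝ) ^ (ε / 2) = (M : ℝ) ^ (-(ε / 2)) := by
        rw [← Real.rpow_add hMpos]
        ring_nf
      have hMe3 : (M : ℝ) ^ (-(ε / 2)) ≤ 1 := Real.rpow_le_one_of_one_le_of_nonpos hMR (by linarith)
      have hMe4 : (0 : ℝ) < (M : ℝ) ^ (-ε) := by positivity
      have hsmall : (6 * (n : ℝ) + 3) * (M : ℝ) ^ (-ε) ≤ (M : ℝ) ^ (-(ε / 2)) := by
        rw [← hMe2, mul_comm]
        exact mul_le_mul_of_nonneg_left g4 hMe4.le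
      have hδ0 : 0 ≤ δ := by rw [hδ]; positivity
      have hδ1 : δ ≤ 1 / 2 := by rw [hδ]; nlinarith
      have hcount := Pool.Agent.W5h30.MU.card_rel K (fun i => hKpos i) k hk θ δ hδ0 hδ1
        (X := (M : ℝ) ^ (-ε)) (fun i => by rw [mul_comm]; exact hkle i)
      refine ⟨(((Fintype.piFinset fun i => range (K i)).filter
        (fun w : Fin n → ℕ => ∃ p : ℤ, |(∑ i, (k i : ℝ) * w i / K i) - θ - p| ≤ δ) : Finset (Fin n → ℕ)) :
          Set (Fin n → ℕ)), ?_, ?_, ?_⟩
      · intro w hw i
        rw [mem_coe, mem_filter, Fintype.mem_piFinset] at hw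
        exact mem_range.1 (hw.1 i)
      · rw [Set.ncard_coe_finset, div_le_iff₀ hKprod]
        refine hcount.trans ?_
        refine mul_le_mul_of_nonneg_right ?_ hKprod.le
        calc 6 * δ + 3 * (M : ℝ) ^ (-ε) = (6 * (n : ℝ) + 3) * (M : ℝ) ^ (-ε) := by rw [hδ]; ring
          _ ≤ (M : ℝ) ^ (-(ε / 2)) := hsmall
          _ ≤ (M : ℝ) ^ (-(min c1 (ε / 2))) :=
              Real.rpow_le_rpow_of_exponent_le hMR (by linarith [min_le_right c1 (ε / 2)])
      · intro m _
        rw [mem_coe, mem_filter, Fintype.mem_piFinset]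
        refine ⟨fun i => mem_range.2 (hlt m y i), -∑ i, k i * ⌊(b i : ℝ) ^ (s i) * (m * α (σ i) + y i)⌋, ?_⟩
        have hz : ∑ i, (k i : ℝ) * ((b i : ℝ) ^ (s i) * (m * α (σ i) + y i)) = θ := by
          have h3 : ∑ i, (k i : ℝ) * ((b i : ℝ) ^ (s i) * α (σ i)) =
              ∑ j, ((∑ i with σ i = j, k i * (b i : ℤ) ^ (s i) : ℤ) : ℝ) * α j := by
            rw [← sum_fiberwise (s := univ) (g := σ)]
            refine sum_congr rfl fun j _ => ?_
            push_cast
            rw [sum_mul]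
            refine sum_congr rfl fun i hi => ?_
            rw [(mem_filter.1 hi).2]
            ring
          have h4 : ∑ i, (k i : ℝ) * ((b i : ℝ) ^ (s i) * α (σ i)) = 0 := by
            rw [h3]
            refine sum_eq_zero fun j _ => ?_
            rw [hk0 j]
            simp
          calc ∑ i, (k i : ℝ) * ((b i : ℝ) ^ (s i) * (m * α (σ i) + y i))
              = m * ∑ i, (k i : ℝ) * ((b i : ℝ) ^ (s i) * α (σ i)) +
                ∑ i, (k i : ℝ) * ((b i : ℝ) ^ (s i) * y i) := by
                rw [mul_sum, ← sum_add_distrib]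
                refine sum_congr rfl fun i _ => ?_
                ring
            _ = θ := by rw [h4, hθ]; ring
        have hexp : (∑ i, (k i : ℝ) * ((word (b i) (s i) (K i) (m * α (σ i) + y i) : ℕ) : ℝ) / K i) - θ -
            ((-∑ i, k i * ⌊(b i : ℝ) ^ (s i) * (m * α (σ i) + y i)⌋ : ℤ) : ℝ) =
            -∑ i, (k i : ℝ) * (Int.fract ((b i : ℝ) ^ (s i) * (m * α (σ i) + y i)) -
              ((word (b i) (s i) (K i) (m * α (σ i) + y i) : ℕ) : ℝ) / K i) := by
          rw [← hz]
          push_cast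
          rw [sub_neg_eq_add, ← sum_sub_distrib, ← sum_add_distrib, ← sum_neg_distrib]
          refine sum_congr rfl fun i _ => ?_
          have h5 := Int.self_sub_floor ((b i : ℝ) ^ (s i) * (m * α (σ i) + y i))
          rw [← h5]
          ring
        rw [hexp, abs_neg, hδ]
        refine (abs_sum_le_sum_abs _ _).trans ?_
        have hterm : ∀ i ∈ (univ : Finset (Fin n)), |(k i : ℝ) * (Int.fract ((b i : ℝ) ^ (s i) * (m * α (σ i) + y i)) -
              ((word (b i) (s i) (K i) (m * α (σ i) + y i) : ℕ) : ℝ) / K i)| ≤ (M : ℝ) ^ (-ε) := by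
          intro i _
          have hKi : (0 : ℝ) < K i := by exact_mod_cast hKpos i
          have h5 : |Int.fract ((b i : ℝ) ^ (s i) * (m * α (σ i) + y i)) -
              ((word (b i) (s i) (K i) (m * α (σ i) + y i) : ℕ) : ℝ) / K i| ≤ 1 / K i := by
            unfold word
            have hf := Int.fract_nonneg ((b i : ℝ) ^ (s i) * (m * α (σ i) + y i))
            have h6 := Nat.floor_le (mul_nonneg hKi.le hf)
            have h7 := Nat.lt_floor_add_one ((K i : ℝ) * Int.fract ((b i : ℝ) ^ (s i) * (m * α (σ i) + y i)))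
            have h8 : ((⌊(K i : ℝ) * Int.fract ((b i : ℝ) ^ (s i) * (m * α (σ i) + y i))⌋₊ : ℕ) : ℝ) / K i ≤
                Int.fract ((b i : ℝ) ^ (s i) * (m * α (σ i) + y i)) := by
              rw [div_le_iff₀ hKi]
              linarith
            have h9 : Int.fract ((b i : ℝ) ^ (s i) * (m * α (σ i) + y i)) ≤
                (((⌊(K i : ℝ) * Int.fract ((b i : ℝ) ^ (s i) * (m * α (σ i) + y i))⌋₊ : ℕ) : ℝ) + 1) / K i := by
              rw [le_div_iff₀ hKi]
              linarith
            rw [add_div] at h9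
            rw [abs_le]
            constructor
            · have : (0 : ℝ) ≤ 1 / K i := by positivity
              linarith
            · linarith
          rw [abs_mul]
          calc |(k i : ℝ)| * _ ≤ ((M : ℝ) ^ (-ε) * K i) * (1 / K i) :=
                mul_le_mul (hkle i) h5 (abs_nonneg _) (by positivity)
            _ = (M : ℝ) ^ (-ε) := by field_simp
        refine (sum_le_sum hterm).trans ?_
        rw [sum_const, card_univ, Fintype.card_fin, nsmul_eq_mul]

end Pool.Agent.W5h30.OL.MultiplesSharpCutoff
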