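import Mathlib
import Pool.Agent.W5h30.PW.Main
import Pool.Agent.W5h30.SM.Few

/-!
# The digit matrices of the tuples `(x, x ^ 2, …, x ^ n)`, `x` a random algebraic number

Let `d, n ≥ 2` and `ε > 0`. Let `x` be a random real algebraic number in `[a, b]` of degree `d` and
height at most `H`, and consider the digit matrix whose rows are the words of `N` consecutive digits, in
a base `r`, of `x, x ^ 2, …, x ^ n` after the place `s`. Put `m = r ^ s`, `K = r ^ N`; `m` and `K` may be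
arbitrary integers. The matrix is uniformly distributed, up to `H^-c` in total variation, if
`K ^ (n - 1) ≤ m H^-ε` and `m K ≤ H^(d+1-ε)`. Both conditions are sharp: if `K ^ (n - 1) ≥ m H^ε`, or if
`K ^ n ≥ H^(d+1+ε)`, then a proportion `H^-c` of the matrices carries the law. So the digit matrix with
`n` rows after the place `s` is random as long as it has at most `s / (n - 1)` columns, and no longer.
-/

/-!
Library file (not a hand-in). Description:

Proves: Let d, n >= 2, eps > 0, a < b. There are c > 0 and H0 such that for H >= H0 and x uniform in the finite nonempty set A of the real algebraic numbers of degree d and height <= H in [a,b], for all integers m, K >= 1 and W(x) = (floor(K{m x^j})), j = 1..n: (1) if K^(n-1) <= m H^-eps and m K <= H^(d+1-eps), then W(x) lies in E with probability |E|/K^n up to H^-c, for every set E of n-tuples of integers in [0,K); (2) if K^(n-1) >= m H^eps or K^n >= H^(d+1+eps), some E with |E| <= H^-c K^n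 contains W(x) for all x in A.
Definitions: AlgIn d H a b: the set A (real roots in [a,b] of irreducible integer polynomials of degree d, coefficients at most H in absolute value). word m K y = floor(K {m y}); words n m K x: the tuple W(x).
Relation: Partial answer to Q1. With m = b^s, K = b^N: the n x N digit matrix of (x, ..., x^n) at place s (1, x, ..., x^n are independent if n < d) is uniform in total variation if N <= s/(n-1) - e, s+N <= (d+1) log_b H - e, e = eps log_b H, and singular if N >= s/(n-1) + e: a sharp threshold for all n. JointSharpCutoff (mine) has n = 2, for pairs of functions; n >= 3 is new: the degenerate stationary phases are controlled by quantitative nondivergence (starting files Helper404). Nothing about a single tuple. Unconditional.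
-/

set_option autoImplicit false

namespace Pool.Agent.W5h30.OL.PowersSharpCutoff

open Polynomial

/-- The real algebraic numbers of degree `d` and height at most `H` in `[a, b]` (real roots in `[a, b]`
of irreducible integer polynomials of degree `d` with coefficients at most `H` in absolute value). -/
def AlgIn (d H : ℕ) (a b : ℝ) : Set ℝ :=
  {x | (∃ P : ℤ[X], Irreducible P ∧ P.natDegree = d ∧ (∀ i, |P.coeff i| ≤ H) ∧ aeval x P = 0) ∧
    x ∈ Set.Icc a b}

/-- The integer part of `K {m y}`; for `m = r ^ s` and `K = r ^ N` this is the word of the digits in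
base `r` of `y` at the places `s + 1, ..., s + N` after the point. -/
noncomputable def word (m K : ℕ) (y : ℝ) : ℕ := ⌊(K : ℝ) * Int.fract ((m : ℝ) * y)⌋₊

/-- The words of `x, x ^ 2, …, x ^ n`. -/
noncomputable def words (n m K : ℕ) (x : ℝ) : Fin n → ℕ := fun j => word m K (x ^ ((j : ℕ) + 1))

/-- **Main theorem.** -/
theorem result (d : ℕ) (hd : 2 ≤ d) (n : ℕ) (hn : 2 ≤ n) (ε : ℝ) (hε : 0 < ε) (a b : ℝ) (hab : a < b) :
    ∃ c : ℝ, 0 < c ∧ ∃ H0 : ℕ, ∀ H : ℕ, H0 ≤ H → (AlgIn d H a b).Finite ∧ (AlgIn d H a b).Nonempty ∧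
      ∀ m K : ℕ, 1 ≤ m → 1 ≤ K →
      ((K : ℝ) ^ (n - 1) ≤ (m : ℝ) * (H : ℝ) ^ (-ε) → (m : ℝ) * K ≤ (H : ℝ) ^ ((d : ℝ) + 1 - ε) →
        ∀ E : Set (Fin n → ℕ), E ⊆ {w | ∀ j, w j < K} →
        |({x | x ∈ AlgIn d H a b ∧ words n m K x ∈ E}.ncard : ℝ) / (AlgIn d H a b).ncard -
          (E.ncard : ℝ) / (K : ℝ) ^ n| ≤ (H : ℝ) ^ (-c)) ∧
      ((m : ℝ) * (H : ℝ) ^ ε ≤ (K : ℝ) ^ (n - 1) ∨ (H : ℝ) ^ ((d : ℝ) + 1 + ε) ≤ (K : ℝ) ^ n →
        ∃ E : Set (Fin n → ℕ), E ⊆ {w | ∀ j, w j < K} ∧ (E.ncard : ℝ) / (K : ℝ) ^ n ≤ (H : ℝ) ^ (-c) ∧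
        ∀ x ∈ AlgIn d H a b, words n m K x ∈ E) := by
  classical
  obtain ⟨q, rfl⟩ : ∃ q, d = q + 2 := ⟨d - 2, by omega⟩
  obtain ⟨r, rfl⟩ : ∃ r, n = r + 1 := ⟨n - 1, by omega⟩
  rw [Nat.add_sub_cancel]
  have hr : 1 ≤ r := by omega
  obtain ⟨ε', hε'⟩ : ∃ ε' : ℝ, ε' = min ε 1 := ⟨_, rfl⟩
  have hε'0 : 0 < ε' := by rw [hε']; exact lt_min hε one_pos
  have hε'1 : ε' ≤ 1 := by rw [hε']; exact min_le_right _ _
  have hε'e : ε' ≤ ε := by rw [hε']; exact min_le_left _ _
  obtain ⟨c1, hc1, H1, hlaw⟩ := Pool.Agent.W5h30.PW.powers_law r hr hab q ε' hε'0 hε'1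
  obtain ⟨C1, hC1, hoff⟩ := Pool.Agent.W5h30.PW.PVn_off r hab.le
  obtain ⟨C3, hC3⟩ : ∃ C3 : ℝ, C3 = 3 ^ (q + 3) * (q + 2) := ⟨_, rfl⟩
  have hC30 : 0 < C3 := by rw [hC3]; positivity
  obtain ⟨c, hc⟩ : ∃ c : ℝ, c = min c1 (ε / 2) := ⟨_, rfl⟩
  have hc0 : 0 < c := by rw [hc]; exact lt_min hc1 (by positivity)
  have hca : c ≤ c1 := by rw [hc]; exact min_le_left _ _
  have hcc : 2 * c ≤ ε := by
    have : c ≤ ε / 2 := by rw [hc]; exact min_le_right _ _
    linarith
  refine ⟨c, hc0, ?_⟩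
  have hev : ∀ᶠ H : ℕ in Filter.atTop, C3 ≤ (H : ℝ) ^ c ∧ 2 * C1 + 1 ≤ (H : ℝ) ^ c ∧ H1 ≤ H ∧ 1 ≤ H := by
    filter_upwards [Pool.Agent.W5h30.LL.ev_rpow C3 c hc0,
      Pool.Agent.W5h30.LL.ev_rpow (2 * C1 + 1) c hc0, Filter.eventually_ge_atTop H1,
      Filter.eventually_ge_atTop 1] with H a b c d
    exact ⟨a, b, c, d⟩
  obtain ⟨H0, hH0⟩ := Filter.eventually_atTop.1 hev
  refine ⟨H0, fun H hH => ?_⟩
  obtain ⟨g1, g1', g2, g3⟩ := hH0 H hH
  have hHR : (1 : ℝ) ≤ H := by exact_mod_cast g3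
  have hHpos : (0 : ℝ) < H := by linarith
  have hfin' : (Pool.Agent.Y933.KG.Alg (q + 2) H).Finite := Pool.Agent.Y933.KG.Alg_finite q H
  have hsub : AlgIn (q + 2) H a b ⊆ Pool.Agent.Y933.KG.Alg (q + 2) H := fun x hx => hx.1
  have hfin : (AlgIn (q + 2) H a b).Finite := hfin'.subset hsub
  obtain ⟨s, hs⟩ : ∃ s : Finset ℝ, s = hfin'.toFinset := ⟨_, rfl⟩
  have hmem : ∀ x, x ∈ s ↔ x ∈ Pool.Agent.Y933.KG.Alg (q + 2) H := by
    intro x
    rw [hs, Set.Finite.mem_toFinset]
  have hcount : ∀ P : ℝ → Prop, {x | x ∈ AlgIn (q + 2) H a b ∧ P x}.ncard =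
      Pool.Agent.W5h30.LL.cn s (fun x => x ∈ Set.Icc a b ∧ P x) := by
    intro P
    have h1 : {x | x ∈ AlgIn (q + 2) H a b ∧ P x} =
        ((s.filter (fun x => x ∈ Set.Icc a b ∧ P x) : Finset ℝ) : Set ℝ) := by
      rw [Finset.coe_filter]
      ext x
      show ((x ∈ Pool.Agent.Y933.KG.Alg (q + 2) H ∧ x ∈ Set.Icc a b) ∧ P x) ↔
        (x ∈ s ∧ x ∈ Set.Icc a b ∧ P x)
      rw [hmem, and_assoc]
    rw [h1, Set.ncard_coe_finset]
    unfold Pool.Agent.W5h30.LL.cn
    congr 1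
    ext x
    simp only [Finset.mem_filter]
  have hcard : (AlgIn (q + 2) H a b).ncard = Pool.Agent.W5h30.LL.cn s (fun x => x ∈ Set.Icc a b) := by
    have h1 := hcount fun _ => True
    have h2 : {x | x ∈ AlgIn (q + 2) H a b ∧ True} = AlgIn (q + 2) H a b := by
      ext x
      exact ⟨fun h => h.1, fun h => ⟨h, trivial⟩⟩
    rw [h2] at h1
    rw [h1]
    congr 1
    funext x
    exact propext ⟨fun h => h.1, fun h => ⟨h, trivial⟩⟩
  obtain ⟨hpos, hl⟩ := hlaw H g2 s hmem
  have hq3 : ((q + 2 : ℕ) : ℝ) + 1 = (q : ℝ) + 3 := by push_cast; ring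
  have hword : ∀ (m K : ℕ) (x : ℝ), words (r + 1) m K x = Pool.Agent.W5h30.PW.cellp r m K x := fun _ _ _ => rfl
  have hwlt : ∀ (m K : ℕ) (x : ℝ), 1 ≤ K → ∀ j, words (r + 1) m K x j < K := fun m K x hK j =>
    Pool.Agent.W5h30.SM.cell_lt hK _
  refine ⟨hfin, ?_, fun m K hm hK => ⟨?_, ?_⟩⟩
  · rw [← hcard] at hpos
    exact Set.nonempty_of_ncard_ne_zero hpos.ne'
  · intro hKm hmK E hE
    obtain ⟨Ef, hEf⟩ : ∃ Ef : Finset (Fin (r + 1) → ℕ), Ef =
      (Fintype.piFinset fun _ : Fin (r + 1) => Finset.range K).filter (fun e => e ∈ E) := ⟨_, rfl⟩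
    have hEf' : ∀ e, e ∈ Ef ↔ e ∈ E := by
      intro e
      rw [hEf, Finset.mem_filter, Fintype.mem_piFinset]
      exact ⟨fun h => h.2, fun h => ⟨fun j => Finset.mem_range.2 (hE h j), h⟩⟩
    have hEcoe : E = (Ef : Set (Fin (r + 1) → ℕ)) := by
      ext e
      rw [Finset.mem_coe, hEf']
    rw [hq3] at hmK
    have h1 := hl m K hK (by
        have h2 : (K : ℝ) ^ r * (H : ℝ) ^ ε ≤ m := by
          have h3 := mul_le_mul_of_nonneg_right hKm (by positivity : (0 : ℝ) ≤ (H : ℝ) ^ ε)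
          have h4 : (m : ℝ) * (H : ℝ) ^ (-ε) * (H : ℝ) ^ ε = m := by
            rw [mul_assoc, ← Real.rpow_add hHpos, neg_add_cancel, Real.rpow_zero, mul_one]
          rwa [h4] at h3
        refine le_trans ?_ h2
        have : (H : ℝ) ^ ε' ≤ (H : ℝ) ^ ε := Real.rpow_le_rpow_of_exponent_le hHR hε'e
        gcongr)
      (hmK.trans (Real.rpow_le_rpow_of_exponent_le hHR (by linarith))) Ef
      (fun w hw j => hE ((hEf' w).1 hw) j)
    have h3 : Pool.Agent.W5h30.LL.cn s (fun x => x ∈ Pool.Agent.W5h30.PW.PVn a b r m K Ef) =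
        Pool.Agent.W5h30.LL.cn s (fun x => x ∈ Set.Icc a b ∧ words (r + 1) m K x ∈ E) := by
      congr 1
      funext x
      apply propext
      show (x ∈ Set.Icc a b ∧ Pool.Agent.W5h30.PW.cellp r m K x ∈ Ef) ↔ _
      rw [hEf']
      exact Iff.rfl
    rw [h3, ← hcount, ← hcard] at h1
    rw [hEcoe, Set.ncard_coe_finset, ← hEcoe]
    exact h1.trans (Real.rpow_le_rpow_of_exponent_le hHR (by linarith))
  · intro hcond
    have hK0 : (0 : ℝ) < K := by exact_mod_cast hK
    have hKr : (0 : ℝ) < (K : ℝ) ^ (r + 1) := by positivity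
    have h2c : (H : ℝ) ^ c * (H : ℝ) ^ c ≤ (H : ℝ) ^ ε := by
      rw [← Real.rpow_add hHpos]
      exact Real.rpow_le_rpow_of_exponent_le hHR (by linarith)
    have hHc : (0 : ℝ) < (H : ℝ) ^ c := by positivity
    rcases hcond with hcond | hcond
    · obtain ⟨Q, hQ, hQoff⟩ := hoff m K hm hK
      obtain ⟨E, hE1, hE2, hE3⟩ := Pool.Agent.W5h30.SM.few_values
        (fun x => words (r + 1) m K x) a b Q (by
          intro x y hxy hz hx hy
          exact (hQoff x y hxy hz).2 hx)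
      refine ⟨(E : Set (Fin (r + 1) → ℕ)), ?_, ?_, fun x hx => hE2 x hx.2⟩
      · intro e he
        obtain ⟨t, rfl⟩ := hE3 e he
        exact fun j => hwlt m K t hK j
      · rw [Set.ncard_coe_finset, div_le_iff₀ hKr, Real.rpow_neg hHpos.le, ← div_eq_inv_mul,
          le_div_iff₀ hHc]
        have hmR : (1 : ℝ) ≤ m := by exact_mod_cast hm
        have hKR : (1 : ℝ) ≤ K := by exact_mod_cast hK
        have h1 : (E.card : ℝ) ≤ 2 * Q.card + 1 := by exact_mod_cast hE1
        have h3 : (1 : ℝ) ≤ (m : ℝ) * K := one_le_mul_of_one_le_of_one_le hmR hKR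
        have h4 : (E.card : ℝ) ≤ (2 * C1 + 1) * ((m : ℝ) * K) := by nlinarith
        calc (E.card : ℝ) * (H : ℝ) ^ c ≤ ((2 * C1 + 1) * ((m : ℝ) * K)) * (H : ℝ) ^ c := by gcongr
          _ ≤ ((H : ℝ) ^ c * ((m : ℝ) * K)) * (H : ℝ) ^ c := by gcongr
          _ = (m * ((H : ℝ) ^ c * (H : ℝ) ^ c)) * K := by ring
          _ ≤ (m * (H : ℝ) ^ ε) * K := by gcongr
          _ ≤ (K : ℝ) ^ r * K := by gcongr
          _ = (K : ℝ) ^ (r + 1) := by rw [pow_succ]
    · refine ⟨(fun x : ℝ => words (r + 1) m K x) '' AlgIn (q + 2) H a b, ?_, ?_, ?_⟩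
      · rintro _ ⟨x, _, rfl⟩
        exact fun j => hwlt m K x hK j
      · have h1 : ((fun x : ℝ => words (r + 1) m K x) '' AlgIn (q + 2) H a b).ncard ≤
            (AlgIn (q + 2) H a b).ncard := Set.ncard_image_le hfin
        have h2 : (AlgIn (q + 2) H a b).ncard ≤ (Pool.Agent.Y933.KG.Om q H).card := by
          rw [hcard]
          exact (Pool.Agent.W5h30.LL.cn_le_NP hmem _).trans (Pool.Agent.W5h30.LL.NP_le q H _)
        have h3 := Pool.Agent.Y933.KG.card_Om_le q H g3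
        rw [← hC3] at h3
        have h4 : (((fun x : ℝ => words (r + 1) m K x) '' AlgIn (q + 2) H a b).ncard : ℝ) ≤
            C3 * (H : ℝ) ^ (q + 3) := le_trans (by exact_mod_cast h1.trans h2) h3
        rw [div_le_iff₀ hKr]
        refine h4.trans ?_
        rw [hq3] at hcond
        calc C3 * (H : ℝ) ^ (q + 3) ≤ (H : ℝ) ^ c * (H : ℝ) ^ (q + 3) :=
              mul_le_mul_of_nonneg_right g1 (by positivity)
          _ = (H : ℝ) ^ (c + ((q : ℝ) + 3)) := by
              rw [Real.rpow_add hHpos]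
              congr 1
              rw [← Real.rpow_natCast]
              push_cast
              rfl
          _ ≤ (H : ℝ) ^ (-c + ((q : ℝ) + 3 + ε)) := Real.rpow_le_rpow_of_exponent_le hHR (by linarith)
          _ = (H : ℝ) ^ (-c) * (H : ℝ) ^ ((q : ℝ) + 3 + ε) := Real.rpow_add hHpos _ _
          _ ≤ _ := mul_le_mul_of_nonneg_left hcond (by positivity)
      · intro x hx
        exact ⟨x, hx, rfl⟩

end Pool.Agent.W5h30.OL.PowersSharpCutoff
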