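import Mathlib
import Pool.Agent.W5h30.RM.Law2
import Pool.Agent.W5h30.RM.Conv

/-!
# The joint law of the digits of the rational multiples of several real numbers

Let `x_1, …, x_n` be arbitrary real numbers other than `0`, for instance `e`, `π`, `√2`. Let `r` be a random
fraction between `0` and `1` whose denominator is a prime number `≤ P`. We read a word of digits of
each number `r x_i + y_i`, in any base, in windows that follow each other with gaps. The words are
jointly uniformly distributed, up to `P ^ (-c)` in total variation, if the number `∏ K_i` of the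
possible values of the words and the largest place `D` (in units of the natural logarithm) satisfy
`∏ K_i · D ^ 2 ≤ P ^ (2 - ε)`. So, at the places up to `P ^ (o(1))`, the words have total length
`(2 - o(1)) log P` in units of the natural logarithm; this is optimal: if `∏ K_i ≥ P ^ (2 + ε)` then a
proportion `P ^ (-c)` of the words carries the law. No Diophantine property of the numbers `x_i` is
used.

Proof. The Fourier coefficients of the law are averages of `exp(2πi r θ)`, where `θ` is a combination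
of the numbers `m_i x_i` with integral coefficients. Such an average is small, because the integers near
to `θ` have few prime divisors.
-/

set_option autoImplicit false

namespace Pool.Agent.W5h30.OL.RationalMultiplesLaw

open Finset

/-- the rational numbers between `0` and `1` whose denominator is a prime number `≤ P` -/
def Fractions (P : ℕ) : Set ℚ := {r | 0 < r ∧ r < 1 ∧ r.den.Prime ∧ r.den ≤ P}

/-- The integer part of `K {m z}`; for `m = b ^ s` and `K = b ^ N` this is the word of the `N` digits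
in base `b` of `z` after the place `s`. -/
noncomputable def word (m K : ℕ) (z : ℝ) : ℕ := ⌊(K : ℝ) * Int.fract ((m : ℝ) * z)⌋₊

/-- **Main theorem.** -/
theorem result (n : ℕ) (ε : ℝ) (hε : 0 < ε) : ∃ c : ℝ, 0 < c ∧ ∃ P₀ : ℕ, ∀ P : ℕ, P₀ ≤ P →
    (Fractions P).Finite ∧ (Fractions P).Nonempty ∧
    ∀ (x y : Fin n → ℝ) (m K : Fin n → ℕ), (∀ i, 1 ≤ K i) →
      ((∀ i, (P : ℝ) ^ ε ≤ m i * |x i|) →
        (∀ i j, i < j → m i * |x i| * K i * (P : ℝ) ^ ε ≤ m j * |x j|) →
        ∀ D : ℝ, 1 ≤ D → (∀ i, m i * |x i| * K i ≤ Real.exp D) →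
        (∏ i, (K i : ℝ)) * D ^ 2 ≤ (P : ℝ) ^ (2 - ε) →
        ∀ E : Set (Fin n → ℕ), E ⊆ {w | ∀ i, w i < K i} →
        |({r : ℚ | r ∈ Fractions P ∧ (fun i => word (m i) (K i) (r * x i + y i)) ∈ E}.ncard : ℝ) /
          (Fractions P).ncard - (E.ncard : ℝ) / ∏ i, (K i : ℝ)| ≤ (P : ℝ) ^ (-c)) ∧
      ((P : ℝ) ^ (2 + ε) ≤ ∏ i, (K i : ℝ) →
        ∃ E : Set (Fin n → ℕ), E ⊆ {w | ∀ i, w i < K i} ∧
          (E.ncard : ℝ) / ∏ i, (K i : ℝ) ≤ (P : ℝ) ^ (-c) ∧
          ∀ r ∈ Fractions P, (fun i => word (m i) (K i) (r * x i + y i)) ∈ E) := by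
  classical
  obtain ⟨ε', hε'⟩ : ∃ ε' : ℝ, ε' = min ε 1 := ⟨_, rfl⟩
  have hε'0 : 0 < ε' := by rw [hε']; exact lt_min hε one_pos
  have hε'1 : ε' ≤ 1 := by rw [hε']; exact min_le_right _ _
  have hε'e : ε' ≤ ε := by rw [hε']; exact min_le_left _ _
  obtain ⟨c1, hc1, P1, hlaw⟩ := Pool.Agent.W5h30.RM.joint_law n ε' hε'0 hε'1
  obtain ⟨P2, hP2⟩ := Filter.eventually_atTop.1 (Pool.Agent.W5h30.RM.ev_card 1 one_pos)
  refine ⟨min c1 ε, lt_min hc1 hε, max (max P1 P2) 1, fun P hP => ?_⟩
  have hPa : P1 ≤ P := (le_max_left _ _).trans ((le_max_left _ _).trans hP)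
  have hPb : P2 ≤ P := (le_max_right _ _).trans ((le_max_left _ _).trans hP)
  have hPc : 1 ≤ P := (le_max_right _ _).trans hP
  have hPR : (1 : ℝ) ≤ P := by exact_mod_cast hPc
  have hPp : (0 : ℝ) < P := by linarith
  have hcoe : Fractions P = (Pool.Agent.W5h30.RM.FS P : Set ℚ) := Pool.Agent.W5h30.RM.coe_FS P
  have hne : (Pool.Agent.W5h30.RM.FS P).Nonempty := by
    rw [← card_pos]
    have h1 := hP2 P hPb
    have h2 : (0 : ℝ) < (P : ℝ) ^ (2 - (1 : ℝ)) := by positivity
    exact_mod_cast h2.trans_le h1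
  refine ⟨by rw [hcoe]; exact finite_toSet _, by rw [hcoe]; exact_mod_cast hne,
    fun x y m K hK => ?_⟩
  have hKR : ∀ i, (1 : ℝ) ≤ K i := fun i => by exact_mod_cast hK i
  have hcell : ∀ (r : ℚ) (i : Fin n), word (m i) (K i) (r * x i + y i) =
      Pool.Agent.W5h30.SM.cell (K i) (m i * (r * x i + y i)) := fun r i => rfl
  have hlt : ∀ (r : ℚ) (i : Fin n), word (m i) (K i) (r * x i + y i) < K i := by
    intro r i
    rw [hcell]
    exact Pool.Agent.W5h30.SM.cell_lt (hK i) _
  refine ⟨fun hx hsep D hD hexp hprod E hE => ?_, fun hprod => ?_⟩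
  · obtain ⟨Ef, hEf⟩ : ∃ Ef : Finset (Fin n → ℕ), Ef =
        (Fintype.piFinset fun i => range (K i)).filter (fun w => w ∈ E) := ⟨_, rfl⟩
    have hEf' : ∀ w, w ∈ Ef ↔ w ∈ E := by
      intro w
      rw [hEf, mem_filter, Fintype.mem_piFinset]
      exact ⟨fun h => h.2, fun h => ⟨fun i => mem_range.2 (hE h i), h⟩⟩
    have hEcoe : E = (Ef : Set (Fin n → ℕ)) := by
      ext w
      rw [mem_coe, hEf']
    have hpow : (P : ℝ) ^ ε' ≤ (P : ℝ) ^ ε := Real.rpow_le_rpow_of_exponent_le hPR hε'e
    have h1 := hlaw P hPa x y m K D hD hK (fun i => hpow.trans (hx i)) (fun i j hij => by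
        refine le_trans ?_ (hsep i j hij)
        exact mul_le_mul_of_nonneg_left hpow (by positivity)) hexp
      (hprod.trans (Real.rpow_le_rpow_of_exponent_le hPR (by linarith))) Ef
      (fun w hw i => hE ((hEf' w).1 hw) i)
    have h2 : {r : ℚ | r ∈ Fractions P ∧ (fun i => word (m i) (K i) (r * x i + y i)) ∈ E}.ncard =
        ((Pool.Agent.W5h30.RM.FS P).filter (fun r : ℚ =>
          (fun j => Pool.Agent.W5h30.SM.cell (K j) (m j * (r * x j + y j))) ∈ Ef)).card := by
      rw [← Set.ncard_coe_finset]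
      congr 1
      ext r
      rw [hcoe, Set.mem_ofPred_eq, mem_coe, mem_coe, mem_filter, hEf']
      exact Iff.rfl
    rw [h2, hcoe, Set.ncard_coe_finset, hEcoe, Set.ncard_coe_finset]
    refine h1.trans (Real.rpow_le_rpow_of_exponent_le hPR ?_)
    have := min_le_left c1 ε
    linarith
  · refine ⟨((Pool.Agent.W5h30.RM.FS P).image (fun r : ℚ =>
      (fun i => word (m i) (K i) (r * x i + y i))) : Finset (Fin n → ℕ)), ?_, ?_, ?_⟩
    · intro w hw
      rw [mem_coe, mem_image] at hw
      obtain ⟨r, -, rfl⟩ := hw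
      exact fun i => hlt r i
    · rw [Set.ncard_coe_finset]
      have h1 : (((Pool.Agent.W5h30.RM.FS P).image (fun r : ℚ =>
          (fun i => word (m i) (K i) (r * x i + y i)))).card : ℝ) ≤ (P : ℝ) ^ (2 : ℝ) := by
        have h2 : ((Pool.Agent.W5h30.RM.FS P).image (fun r : ℚ =>
          (fun i => word (m i) (K i) (r * x i + y i)))).card ≤ P ^ 2 :=
          card_image_le.trans (Pool.Agent.W5h30.RM.card_le P)
        rw [Real.rpow_two]
        exact_mod_cast h2
      have hKprod : 0 < ∏ i, (K i : ℝ) := prod_pos fun i _ => by linarith [hKR i]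
      rw [div_le_iff₀ hKprod]
      calc _ ≤ (P : ℝ) ^ (2 : ℝ) := h1
        _ = (P : ℝ) ^ (-ε) * (P : ℝ) ^ (2 + ε) := by
            rw [← Real.rpow_add hPp]
            congr 1
            ring
        _ ≤ (P : ℝ) ^ (-(min c1 ε)) * ∏ i, (K i : ℝ) := by
            apply mul_le_mul _ hprod (by positivity) (by positivity)
            apply Real.rpow_le_rpow_of_exponent_le hPR
            have := min_le_right c1 ε
            linarith
    · intro r hr
      rw [mem_coe, mem_image]
      rw [hcoe, mem_coe] at hr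
      exact ⟨r, hr, rfl⟩

end Pool.Agent.W5h30.OL.RationalMultiplesLaw
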