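import Mathlib
import Pool.Agent.W5h30.LL.Val2

/-!
# A sharp cutoff for the digits of `f x`, `x` a random algebraic number

Let `d ≥ 2`, `ε > 0`, and let `f` be twice continuously differentiable on `[a, b]` with a derivative
without zeros, for instance `f x = e ^ x`, `π ^ x` or `2 ^ x`. For a random real algebraic number
`x ∈ [a, b]` of degree `d` and height at most `H` the digits of `f x` in any base at the places between
`ε log_b H` and `(d + 1 - ε) log_b H` are jointly uniformly distributed up to `H^-c` in total variation.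
The number `d + 1` is sharp.
-/

/-!
Library file (not a hand-in). Description:

Proves: Let d >= 2, eps > 0, a < b, f twice continuously differentiable on [a,b], f' without zeros on [a,b]. There are c > 0, H0 such that for H >= H0 and x uniform in the finite nonempty set A of the real algebraic numbers of degree d and height <= H in [a,b]: (1) for integers m >= H^eps, K >= 1 with mK <= H^(d+1-eps) and every set E in {0..K-1} the probability of floor(K {m f(x)}) in E is |E|/K up to H^-c; (2) if K >= H^(d+1+eps), for every m some E with |E|/K <= H^-c contains floor(K {m f(x)}) for all x in A.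
Definitions: AlgIn d H a b: the set A (real roots in [a,b] of irreducible integer polynomials of degree d, coefficients at most H in absolute value). word m K y = floor(K {m y}): for m = r^s, K = r^N the word of the base-r digits of y at the places s+1..s+N.
Relation: Partial answer to Q1. f(x) = e^x, pi^x, 2^x (e, pi, sqrt 2 are the values at 1, 1, 1/2; sqrt 2 = f(sqrt 2) for f(x) = x): in every base all digits of f(x) at the places between eps log_r H and (d+1-eps) log_r H, jointly, are those of random numbers in total variation, for random algebraic x; the number d+1 is sharp. Built on my hand-in SharpCutoff of MP_f2f914_nt (the case f(x) = x) and the nondivergence theorem of the starting files. The other results here have single words or weak tests, at rational points. Nothing is claimed for a single number. Unconditional.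
-/

set_option autoImplicit false

namespace Pool.Agent.W5h30.OL.SharpCutoffValues

open Polynomial

/-- The real algebraic numbers of degree `d` and height at most `H` in `[a, b]` (real roots in `[a, b]`
of irreducible integer polynomials of degree `d` with coefficients at most `H` in absolute value). -/
def AlgIn (d H : ℕ) (a b : ℝ) : Set ℝ :=
  {x | (∃ P : ℤ[X], Irreducible P ∧ P.natDegree = d ∧ (∀ i, |P.coeff i| ≤ H) ∧ aeval x P = 0) ∧
    x ∈ Set.Icc a b}

/-- The integer part of `K {m y}`; for `m = r ^ s` and `K = r ^ N` this is the word of the digits in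
base `r` of `y` at the places `s + 1, ..., s + N` after the point. -/
noncomputable def word (m K : ℕ) (y : ℝ) : ℕ := ⌊(K : ℝ) * Int.fract ((m : ℝ) * y)⌋₊

/-- **Main theorem.** -/
theorem result (d : ℕ) (hd : 2 ≤ d) (ε : ℝ) (hε : 0 < ε) (a b : ℝ) (hab : a < b) (f : ℝ → ℝ)
    (hf : ContDiffOn ℝ 2 f (Set.Icc a b)) (hf' : ∀ t ∈ Set.Icc a b, derivWithin f (Set.Icc a b) t ≠ 0) :
    ∃ c : ℝ, 0 < c ∧ ∃ H0 : ℕ, ∀ H : ℕ, H0 ≤ H → (AlgIn d H a b).Finite ∧ (AlgIn d H a b).Nonempty ∧
      (∀ m K : ℕ, (H : ℝ) ^ ε ≤ m → 1 ≤ K → (m : ℝ) * K ≤ (H : ℝ) ^ ((d : ℝ) + 1 - ε) →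
        ∀ E : Set ℕ, E ⊆ Set.Iio K →
        |({x | x ∈ AlgIn d H a b ∧ word m K (f x) ∈ E}.ncard : ℝ) / (AlgIn d H a b).ncard -
          (E.ncard : ℝ) / K| ≤ (H : ℝ) ^ (-c)) ∧
      (∀ m K : ℕ, (H : ℝ) ^ ((d : ℝ) + 1 + ε) ≤ K → ∃ E : Set ℕ, E ⊆ Set.Iio K ∧
        (E.ncard : ℝ) / K ≤ (H : ℝ) ^ (-c) ∧ ∀ x ∈ AlgIn d H a b, word m K (f x) ∈ E) := by
  classical
  obtain ⟨q, rfl⟩ : ∃ q, d = q + 2 := ⟨d - 2, by omega⟩
  -- the hypotheses on `f`
  set F : ℝ → ℝ := derivWithin f (Set.Icc a b) with hF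
  have hud : UniqueDiffOn ℝ (Set.Icc a b) := uniqueDiffOn_Icc hab
  have hF1 : ContDiffOn ℝ 1 F (Set.Icc a b) := hf.derivWithin hud (by norm_num)
  obtain ⟨L, hL⟩ := hF1.exists_lipschitzOnWith one_ne_zero (convex_Icc a b) isCompact_Icc
  obtain ⟨t0, ht0, hmin⟩ := isCompact_Icc.exists_isMinOn (Set.nonempty_Icc.2 hab.le) hF1.continuousOn.abs
  have hnice : Pool.Agent.W5h30.LL.Nice f F a b |F t0| L := by
    refine ⟨hab, fun t ht => ?_, abs_pos.2 (hf' t0 ht0), fun t ht => hmin ht, L.2, fun s hs t ht => ?_⟩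
    · exact ((hf.differentiableOn (by norm_num)) t ht).hasDerivWithinAt
    · have := hL.dist_le_mul s hs t ht
      rwa [Real.dist_eq, Real.dist_eq] at this
  obtain ⟨c1, hc1, H1, hlaw⟩ := hnice.law_val q ε hε
  obtain ⟨C3, hC3⟩ : ∃ C3 : ℝ, C3 = 3 ^ (q + 3) * (q + 2) := ⟨_, rfl⟩
  have hC30 : 0 < C3 := by rw [hC3]; positivity
  obtain ⟨c, hc⟩ : ∃ c : ℝ, c = min c1 (ε / 2) := ⟨_, rfl⟩
  have hc0 : 0 < c := by rw [hc]; exact lt_min hc1 (by positivity)
  have hca : c ≤ c1 := by rw [hc]; exact min_le_left _ _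
  have hcc : 2 * c ≤ ε := by
    have : c ≤ ε / 2 := by rw [hc]; exact min_le_right _ _
    linarith
  refine ⟨c, hc0, ?_⟩
  have hev : ∀ᶠ H : ℕ in Filter.atTop, C3 ≤ (H : ℝ) ^ c ∧ H1 ≤ H ∧ 1 ≤ H := by
    filter_upwards [Pool.Agent.W5h30.LL.ev_rpow C3 c hc0, Filter.eventually_ge_atTop H1,
      Filter.eventually_ge_atTop 1] with H a b c
    exact ⟨a, b, c⟩
  obtain ⟨H0, hH0⟩ := Filter.eventually_atTop.1 hev
  refine ⟨H0, fun H hH => ?_⟩
  obtain ⟨g1, g2, g3⟩ := hH0 H hH
  have hHR : (1 : ℝ) ≤ H := by exact_mod_cast g3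
  have hHpos : (0 : ℝ) < H := by linarith
  have hfin' : (Pool.Agent.Y933.KG.Alg (q + 2) H).Finite := Pool.Agent.Y933.KG.Alg_finite q H
  have hsub : AlgIn (q + 2) H a b ⊆ Pool.Agent.Y933.KG.Alg (q + 2) H := fun x hx => hx.1
  have hfin : (AlgIn (q + 2) H a b).Finite := hfin'.subset hsub
  obtain ⟨s, hs⟩ : ∃ s : Finset ℝ, s = hfin'.toFinset := ⟨_, rfl⟩
  have hmem : ∀ x, x ∈ s ↔ x ∈ Pool.Agent.Y933.KG.Alg (q + 2) H := by
    intro x
    rw [hs, Set.Finite.mem_toFinset]
  have hcount : ∀ P : ℝ → Prop, {x | x ∈ AlgIn (q + 2) H a b ∧ P x}.ncard =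
      Pool.Agent.W5h30.LL.cn s (fun x => x ∈ Set.Icc a b ∧ P x) := by
    intro P
    have h1 : {x | x ∈ AlgIn (q + 2) H a b ∧ P x} =
        ((s.filter (fun x => x ∈ Set.Icc a b ∧ P x) : Finset ℝ) : Set ℝ) := by
      rw [Finset.coe_filter]
      ext x
      show ((x ∈ Pool.Agent.Y933.KG.Alg (q + 2) H ∧ x ∈ Set.Icc a b) ∧ P x) ↔
        (x ∈ s ∧ x ∈ Set.Icc a b ∧ P x)
      rw [hmem, and_assoc]
    rw [h1, Set.ncard_coe_finset]
    unfold Pool.Agent.W5h30.LL.cn
    congr 1
    ext x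
    simp only [Finset.mem_filter]
  have hcard : (AlgIn (q + 2) H a b).ncard = Pool.Agent.W5h30.LL.cn s (fun x => x ∈ Set.Icc a b) := by
    have h1 := hcount fun _ => True
    have h2 : {x | x ∈ AlgIn (q + 2) H a b ∧ True} = AlgIn (q + 2) H a b := by
      ext x
      exact ⟨fun h => h.1, fun h => ⟨h, trivial⟩⟩
    rw [h2] at h1
    rw [h1]
    congr 1
    funext x
    exact propext ⟨fun h => h.1, fun h => ⟨h, trivial⟩⟩
  obtain ⟨hpos, hl⟩ := hlaw H g2 s hmem
  have hq3 : ((q + 2 : ℕ) : ℝ) + 1 = (q : ℝ) + 3 := by push_cast; ring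
  refine ⟨hfin, ?_, ?_, ?_⟩
  · rw [← hcard] at hpos
    exact Set.nonempty_of_ncard_ne_zero hpos.ne'
  · intro m K hm hK hmK E hE
    have hm1 : (1 : ℝ) ≤ m := (Real.one_le_rpow hHR hε.le).trans hm
    have hm1' : 1 ≤ m := by exact_mod_cast hm1
    obtain ⟨Ef, hEf⟩ : ∃ Ef : Finset ℕ, Ef = (Finset.range K).filter (fun e => e ∈ E) := ⟨_, rfl⟩
    have hEf' : ∀ e, e ∈ Ef ↔ e ∈ E := by
      intro e
      rw [hEf, Finset.mem_filter, Finset.mem_range]
      exact ⟨fun h => h.2, fun h => ⟨hE h, h⟩⟩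
    have hEcoe : E = (Ef : Set ℕ) := by
      ext e
      rw [Finset.mem_coe, hEf']
    have hlt : ∀ e ∈ Ef, e < K := fun e he => hE ((hEf' e).1 he)
    rw [hq3] at hmK
    have h1 := hl m K hm hK hmK Ef hlt
    have h3 : Pool.Agent.W5h30.LL.cn s (fun x => x ∈ Pool.Agent.W5h30.LL.Ev f a b m K Ef) =
        Pool.Agent.W5h30.LL.cn s (fun x => x ∈ Set.Icc a b ∧ word m K (f x) ∈ E) := by
      congr 1
      funext x
      apply propext
      show (x ∈ Set.Icc a b ∧ (⌊((m * K : ℕ) : ℝ) * f x⌋ % (K : ℤ)).toNat ∈ Ef) ↔ _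
      rw [← Pool.Agent.W5h30.LL.floor_fract m K hK (f x), hEf']
      exact Iff.rfl
    rw [h3, ← hcount, ← hcard] at h1
    rw [hEcoe, Set.ncard_coe_finset, ← hEcoe]
    exact h1.trans (Real.rpow_le_rpow_of_exponent_le hHR (by linarith))
  · intro m K hKH
    have hK1 : (1 : ℝ) ≤ K := (Real.one_le_rpow hHR (by positivity)).trans hKH
    have hK0 : (0 : ℝ) < K := by linarith
    refine ⟨(fun x : ℝ => word m K (f x)) '' AlgIn (q + 2) H a b, ?_, ?_, ?_⟩
    · rintro _ ⟨x, _, rfl⟩
      show word m K (f x) ∈ Set.Iio K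
      unfold word
      rw [Set.mem_Iio, Nat.floor_lt (mul_nonneg hK0.le (Int.fract_nonneg _))]
      have := mul_lt_mul_of_pos_left (Int.fract_lt_one ((m : ℝ) * f x)) hK0
      linarith
    · have h1 : ((fun x : ℝ => word m K (f x)) '' AlgIn (q + 2) H a b).ncard ≤
          (AlgIn (q + 2) H a b).ncard := Set.ncard_image_le hfin
      have h2 : (AlgIn (q + 2) H a b).ncard ≤ (Pool.Agent.Y933.KG.Om q H).card := by
        rw [hcard]
        exact (Pool.Agent.W5h30.LL.cn_le_NP hmem _).trans (Pool.Agent.W5h30.LL.NP_le q H _)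
      have h3 := Pool.Agent.Y933.KG.card_Om_le q H g3
      rw [← hC3] at h3
      have h4 : (((fun x : ℝ => word m K (f x)) '' AlgIn (q + 2) H a b).ncard : ℝ) ≤
          C3 * (H : ℝ) ^ (q + 3) := le_trans (by exact_mod_cast h1.trans h2) h3
      rw [div_le_iff₀ hK0]
      refine h4.trans ?_
      rw [hq3] at hKH
      calc C3 * (H : ℝ) ^ (q + 3) ≤ (H : ℝ) ^ c * (H : ℝ) ^ (q + 3) :=
            mul_le_mul_of_nonneg_right g1 (by positivity)
        _ = (H : ℝ) ^ (c + ((q : ℝ) + 3)) := by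
            rw [Real.rpow_add hHpos]
            congr 1
            rw [← Real.rpow_natCast]
            push_cast
            rfl
        _ ≤ (H : ℝ) ^ (-c + ((q : ℝ) + 3 + ε)) := Real.rpow_le_rpow_of_exponent_le hHR (by linarith)
        _ = (H : ℝ) ^ (-c) * (H : ℝ) ^ ((q : ℝ) + 3 + ε) := Real.rpow_add hHpos _ _
        _ ≤ _ := mul_le_mul_of_nonneg_left hKH (by positivity)
    · intro x hx
      exact ⟨x, hx, rfl⟩

end Pool.Agent.W5h30.OL.SharpCutoffValues
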