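import Pool.Agent.W5h30.An.Fam
import Pool.Agent.W5h30.An.Pol

/-!
# Almost all numbers `e ^ (a / q)`, `π ^ (a / q)`, `2 ^ (a / q)` with a given denominator `q` are
# normal up to a multiple of `log q` digits

No hypothesis is assumed. Let `g` be a real analytic function on a neighbourhood of `[u, v]` which is
not a polynomial, for instance `g(t) = x ^ t` with `x = e`, `π` or `2` (then `e`, `π` and `√2` are among
the values of `g` at rational points). For every large denominator `q`, all but at most `q ^ (1 - c)`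
of the numbers `g(a / q)`, `u ≤ a / q ≤ v`, are normal up to the first `A log q` digits in all bases
up to `B`: all words of at most `w` digits have the right number of occurrences in all windows of the
first `A log q` digits, up to `ε log q`. More generally `g(a / q)` may be replaced by
`ω g(a / q) + R(a)`, with a uniform bound for all real `ω` with `q ^ (-c) ≤ |ω| ≤ q ^ W` and all real
polynomials `R` of bounded degree.

Proof. The derivatives of high order of `g` have only finitely many zeros, of finite order; outside of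
short intervals the van der Corput test of high order bounds the exponential sums over the values.
-/

set_option autoImplicit false

namespace Pool.Agent.W5h30.OL.ValuesAtRationals

open Polynomial

/-- the word of the `k` digits in base `b` of `y` which follow the first `n` digits after the point,
read as an integer between `0` and `b ^ k - 1` -/
noncomputable def word (b k n : ℕ) (y : ℝ) : ℕ :=
  ⌊(b : ℝ) ^ k * Int.fract ((b : ℝ) ^ n * y)⌋₊

/-- in every base `2 ≤ b ≤ B` the number of occurrences of every word of `k ≤ w` digits at the `N`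
places `s, …, s + N - 1` of `y`, for every window with `s + N ≤ L`, differs from `N / b ^ k` by at
most `E` -/
def NormalUpTo (B w : ℕ) (L E : ℝ) (y : ℝ) : Prop :=
  ∀ b k j s N : ℕ, 2 ≤ b → b ≤ B → 1 ≤ k → k ≤ w → j < b ^ k → (s : ℝ) + N ≤ L →
    |(({i : ℕ | i < N ∧ word b k (s + i) y = j}.ncard : ℕ) : ℝ) - N / (b : ℝ) ^ k| ≤ E

theorem exp_not_poly {x : ℝ} (hx : 0 < x) (hx1 : x ≠ 1) {u v : ℝ} (huv : u < v) (P : ℝ[X]) :
    ∃ t ∈ Set.Icc u v, x ^ t ≠ P.eval t := by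
  by_contra hcon
  push Not at hcon
  have h1 : ∀ t ∈ Set.Ioo u v, (derivative P).eval t = (C (Real.log x) * P).eval t := by
    intro t ht
    have h2 : HasDerivAt (fun t : ℝ => x ^ t) (Real.log x * x ^ t) t := by
      have := (hasDerivAt_id t).const_rpow hx
      simpa [mul_comm] using this
    have h3 : HasDerivAt (fun t => P.eval t) ((derivative P).eval t) t := P.hasDerivAt t
    have h4 : (fun t => P.eval t) =ᶠ[nhds t] fun t : ℝ => x ^ t := by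
      filter_upwards [Ioo_mem_nhds ht.1 ht.2] with s hs
      exact (hcon s ⟨hs.1.le, hs.2.le⟩).symm
    have h5 := (h2.congr_of_eventuallyEq h4).unique h3
    rw [← h5, eval_mul, eval_C, hcon t ⟨ht.1.le, ht.2.le⟩]
  have h6 : derivative P = C (Real.log x) * P := by
    refine Polynomial.eq_of_infinite_eval_eq _ _ ((Set.Ioo_infinite huv).mono ?_)
    intro t ht
    exact h1 t ht
  have hP : P ≠ 0 := by
    rintro rfl
    have h7 := hcon u ⟨le_rfl, huv.le⟩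
    rw [eval_zero] at h7
    exact (Real.rpow_pos_of_pos hx u).ne' h7
  have hlog : Real.log x ≠ 0 := by
    rw [Ne, Real.log_eq_zero]
    rintro (h | h | h)
    · exact hx.ne' h
    · exact hx1 h
    · linarith
  have h8 := Polynomial.degree_derivative_lt hP
  rw [h6, degree_C_mul hlog] at h8
  exact lt_irrefl _ h8

open Classical in
theorem general (g : ℝ → ℝ) (u v : ℝ) (huv : u < v) (hg : AnalyticOnNhd ℝ g (Set.Icc u v))
    (hpol : ∀ P : ℝ[X], ∃ t ∈ Set.Icc u v, g t ≠ P.eval t) (B w d : ℕ) (A W ε : ℝ) (hε : 0 < ε) :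
    ∃ c : ℝ, 0 < c ∧ ∃ q₀ : ℕ, ∀ q : ℕ, q₀ ≤ q → ∀ (ω : ℝ) (R : ℝ[X]), (q : ℝ) ^ (-c) ≤ |ω| →
      |ω| ≤ (q : ℝ) ^ W → R.natDegree ≤ d →
      (({a : ℤ | u ≤ (a : ℝ) / q ∧ (a : ℝ) / q ≤ v ∧ ¬ NormalUpTo B w (A * Real.log q)
        (ε * Real.log q) (ω * g ((a : ℝ) / q) + R.eval (a : ℝ))}.ncard : ℕ) : ℝ) ≤
          (q : ℝ) ^ (1 - c) := by
  obtain ⟨c, hc, q0, h⟩ := Pool.Agent.W5h30.An.normal_an huv hg
    (Pool.Agent.W5h30.An.not_poly hg hpol) B w d A W ε hε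
  refine ⟨min c (ε / 16), lt_min hc (by positivity), max q0 1, ?_⟩
  intro q hq ω R hω1 hω2 hR
  have hqq : q0 ≤ q := (le_max_left _ _).trans hq
  have hq1 : 1 ≤ q := (le_max_right _ _).trans hq
  have hqR : (1 : ℝ) ≤ q := by exact_mod_cast hq1
  have hqp : (0 : ℝ) < q := by linarith
  have hω1' : (q : ℝ) ^ (-(ε / 16)) ≤ |ω| := le_trans
    (Real.rpow_le_rpow_of_exponent_le hqR (neg_le_neg (min_le_right _ _))) hω1
  have key := h q hqq ω R hR hω1' hω2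
  have hpow : (q : ℝ) ^ (1 - c) ≤ (q : ℝ) ^ (1 - min c (ε / 16)) :=
    Real.rpow_le_rpow_of_exponent_le hqR (by linarith [min_le_left c (ε / 16)])
  refine le_trans ?_ (key.trans hpow)
  refine Nat.cast_le.2 ?_
  rw [← Set.ncard_coe_finset]
  refine Set.ncard_le_ncard ?_ (Finset.finite_toSet _)
  rintro a ⟨ha1, ha2, ha3⟩
  rw [Finset.mem_coe, Finset.mem_filter]
  refine ⟨?_, fun hcon => ha3 ?_⟩
  · unfold Pool.Agent.W5h30.An.TT
    rw [Finset.mem_Icc]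
    rw [le_div_iff₀ hqp] at ha1
    rw [div_le_iff₀ hqp] at ha2
    exact ⟨Int.ceil_le.2 ha1, Int.le_floor.2 ha2⟩
  · intro b k j s N hb hbB hk hkw hj hsN
    have h1 := hcon b k j s N hb hbB hk hkw hj hsN
    have h2 : {i : ℕ | i < N ∧ word b k (s + i) (ω * g ((a : ℝ) / q) + R.eval (a : ℝ)) = j} =
        (((Finset.range N).filter (fun i => Pool.Agent.Y933.KD.wd b k (s + i)
          (ω * g ((a : ℝ) / q) + R.eval (a : ℝ)) = j) : Finset ℕ) : Set ℕ) := by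
      ext i
      simp only [Set.mem_ofPred_eq, Finset.coe_filter, Finset.mem_range]
      rfl
    rw [h2, Set.ncard_coe_finset]
    exact h1

/-- (1) Let `g` be real analytic on a neighbourhood of `[u, v]` and not a polynomial on `[u, v]`, and
let `B`, `w`, `d`, `A`, `W` and `ε > 0` be given. There are `c > 0` and `q₀` such that for all `q ≥ q₀`,
all real `ω` with `q ^ (-c) ≤ |ω| ≤ q ^ W` and all real polynomials `R` of degree at most `d`, the
numbers `ω g(a / q) + R(a)` satisfy `NormalUpTo B w (A log q) (ε log q)` for all integers `a` with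
`u ≤ a / q ≤ v`, except for at most `q ^ (1 - c)` of them.

(2) Let `x > 0`, `x ≠ 1` (for instance `x = e`, `π` or `2`), `u < v`, and let `B`, `w`, `A` and `ε > 0`
be given. There are `c > 0` and `q₀` such that for all `q ≥ q₀` the following holds for all integers
`a` with `u ≤ a / q ≤ v` except for at most `q ^ (1 - c)` of them: all the numbers
`(k / m) x ^ (a / q)` with integers `k`, `m` between `1` and `q ^ c` satisfy
`NormalUpTo B w (A log q) (ε log q)`. -/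
theorem result :
    (∀ (g : ℝ → ℝ) (u v : ℝ), u < v → AnalyticOnNhd ℝ g (Set.Icc u v) →
      (∀ P : ℝ[X], ∃ t ∈ Set.Icc u v, g t ≠ P.eval t) →
      ∀ (B w d : ℕ) (A W ε : ℝ), 0 < ε → ∃ c : ℝ, 0 < c ∧ ∃ q₀ : ℕ, ∀ q : ℕ, q₀ ≤ q →
        ∀ (ω : ℝ) (R : ℝ[X]), (q : ℝ) ^ (-c) ≤ |ω| → |ω| ≤ (q : ℝ) ^ W → R.natDegree ≤ d →
        (({a : ℤ | u ≤ (a : ℝ) / q ∧ (a : ℝ) / q ≤ v ∧ ¬ NormalUpTo B w (A * Real.log q)
          (ε * Real.log q) (ω * g ((a : ℝ) / q) + R.eval (a : ℝ))}.ncard : ℕ) : ℝ) ≤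
            (q : ℝ) ^ (1 - c)) ∧
    (∀ x : ℝ, 0 < x → x ≠ 1 → ∀ u v : ℝ, u < v → ∀ (B w : ℕ) (A ε : ℝ), 0 < ε →
      ∃ c : ℝ, 0 < c ∧ ∃ q₀ : ℕ, ∀ q : ℕ, q₀ ≤ q →
        (({a : ℤ | u ≤ (a : ℝ) / q ∧ (a : ℝ) / q ≤ v ∧ ¬ ∀ k m : ℕ, 1 ≤ k → (k : ℝ) ≤ (q : ℝ) ^ c →
          1 ≤ m → (m : ℝ) ≤ (q : ℝ) ^ c → NormalUpTo B w (A * Real.log q) (ε * Real.log q)
            ((k : ℝ) / m * x ^ ((a : ℝ) / q))}.ncard : ℕ) : ℝ) ≤ (q : ℝ) ^ (1 - c)) := by
  refine ⟨fun g u v huv hg hpol B w d A W ε hε => general g u v huv hg hpol B w d A W ε hε, ?_⟩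
  intro x hx hx1 u v huv B w A ε hε
  have hg : AnalyticOnNhd ℝ (fun t : ℝ => x ^ t) (Set.Icc u v) := by
    have h1 : (fun t : ℝ => x ^ t) = fun t => Real.exp (Real.log x * t) := by
      funext t
      rw [Real.rpow_def_of_pos hx]
    rw [h1]
    intro t _
    fun_prop
  obtain ⟨c, hc, q0, h⟩ := general (fun t : ℝ => x ^ t) u v huv hg (exp_not_poly hx hx1 huv)
    B w 0 A 1 ε hε
  have hc' : 0 < min (c / 4) (1 / 4) := by positivity
  refine ⟨min (c / 4) (1 / 4), hc', max q0 1, ?_⟩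
  intro q hq
  have hqq : q0 ≤ q := (le_max_left _ _).trans hq
  have hq1 : 1 ≤ q := (le_max_right _ _).trans hq
  have hqR : (1 : ℝ) ≤ q := by exact_mod_cast hq1
  have hqp : (0 : ℝ) < q := by linarith
  obtain ⟨c', hcc⟩ : ∃ c', c' = min (c / 4) (1 / 4) := ⟨_, rfl⟩
  rw [← hcc]
  have hc1 : c' ≤ c / 4 := by rw [hcc]; exact min_le_left _ _
  have hc2 : c' ≤ 1 / 4 := by rw [hcc]; exact min_le_right _ _
  have hc0 : 0 < c' := by rw [hcc]; exact hc'
  obtain ⟨Q, hQ⟩ : ∃ Q : ℕ, Q = ⌊(q : ℝ) ^ c'⌋₊ := ⟨_, rfl⟩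
  have hQ1 : (Q : ℝ) ≤ (q : ℝ) ^ c' := by rw [hQ]; exact Nat.floor_le (by positivity)
  -- the bad sets
  let bad : ℕ × ℕ → Set ℤ := fun p => {a : ℤ | u ≤ (a : ℝ) / q ∧ (a : ℝ) / q ≤ v ∧
    ¬ NormalUpTo B w (A * Real.log q) (ε * Real.log q)
      (((p.1 : ℝ) / p.2) * (fun t : ℝ => x ^ t) ((a : ℝ) / q) + (0 : ℝ[X]).eval (a : ℝ))}
  have hfin : ∀ p, (bad p).Finite := by
    intro p
    refine (Set.finite_Icc ⌈u * q⌉ ⌊v * q⌋).subset ?_
    rintro a ⟨ha1, ha2, -⟩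
    rw [le_div_iff₀ hqp] at ha1
    rw [div_le_iff₀ hqp] at ha2
    exact ⟨Int.ceil_le.2 ha1, Int.le_floor.2 ha2⟩
  have hbad : ∀ p ∈ Finset.Icc 1 Q ×ˢ Finset.Icc 1 Q, ((bad p).ncard : ℝ) ≤ (q : ℝ) ^ (1 - c) := by
    intro p hp
    rw [Finset.mem_product, Finset.mem_Icc, Finset.mem_Icc] at hp
    obtain ⟨⟨h1, h2⟩, ⟨h3, h4⟩⟩ := hp
    have h1' : (1 : ℝ) ≤ p.1 := by exact_mod_cast h1
    have h3' : (1 : ℝ) ≤ p.2 := by exact_mod_cast h3
    have h2' : (p.1 : ℝ) ≤ (q : ℝ) ^ c' := le_trans (by exact_mod_cast h2) hQ1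
    have h4' : (p.2 : ℝ) ≤ (q : ℝ) ^ c' := le_trans (by exact_mod_cast h4) hQ1
    have hpos : (0 : ℝ) < (p.1 : ℝ) / p.2 := by positivity
    refine h q hqq ((p.1 : ℝ) / p.2) 0 ?_ ?_ (by simp)
    · rw [abs_of_pos hpos, le_div_iff₀ (by linarith)]
      calc (q : ℝ) ^ (-c) * p.2 ≤ (q : ℝ) ^ (-c) * (q : ℝ) ^ c' := by gcongr
        _ = (q : ℝ) ^ (-c + c') := by rw [Real.rpow_add hqp]
        _ ≤ 1 := Real.rpow_le_one_of_one_le_of_nonpos hqR (by linarith)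
        _ ≤ p.1 := h1'
    · rw [abs_of_pos hpos, div_le_iff₀ (by linarith)]
      calc (p.1 : ℝ) ≤ (q : ℝ) ^ c' := h2'
        _ ≤ (q : ℝ) ^ (1 : ℝ) := Real.rpow_le_rpow_of_exponent_le hqR (by linarith)
        _ ≤ (q : ℝ) ^ (1 : ℝ) * p.2 := le_mul_of_one_le_right (by positivity) h3'
  have hsub : {a : ℤ | u ≤ (a : ℝ) / q ∧ (a : ℝ) / q ≤ v ∧ ¬ ∀ k m : ℕ, 1 ≤ k →
      (k : ℝ) ≤ (q : ℝ) ^ c' → 1 ≤ m → (m : ℝ) ≤ (q : ℝ) ^ c' →
      NormalUpTo B w (A * Real.log q) (ε * Real.log q) ((k : ℝ) / m * x ^ ((a : ℝ) / q))} ⊆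
      ⋃ p ∈ Finset.Icc 1 Q ×ˢ Finset.Icc 1 Q, bad p := by
    rintro a ⟨ha1, ha2, ha3⟩
    push Not at ha3
    obtain ⟨k, m, hk1, hk2, hm1, hm2, hn⟩ := ha3
    rw [Set.mem_iUnion₂]
    refine ⟨(k, m), ?_, ha1, ha2, ?_⟩
    · rw [Finset.mem_product, Finset.mem_Icc, Finset.mem_Icc, hQ]
      exact ⟨⟨hk1, Nat.le_floor hk2⟩, ⟨hm1, Nat.le_floor hm2⟩⟩
    · simpa using hn
  have hcard : (({a : ℤ | u ≤ (a : ℝ) / q ∧ (a : ℝ) / q ≤ v ∧ ¬ ∀ k m : ℕ, 1 ≤ k →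
      (k : ℝ) ≤ (q : ℝ) ^ c' → 1 ≤ m → (m : ℝ) ≤ (q : ℝ) ^ c' →
      NormalUpTo B w (A * Real.log q) (ε * Real.log q)
        ((k : ℝ) / m * x ^ ((a : ℝ) / q))}.ncard : ℕ) : ℝ) ≤
      ∑ p ∈ Finset.Icc 1 Q ×ˢ Finset.Icc 1 Q, ((bad p).ncard : ℝ) := by
    have h1 := Set.ncard_le_ncard hsub
      (Set.Finite.biUnion (Finset.finite_toSet _) fun p _ => hfin p)
    have h2 : (⋃ p ∈ Finset.Icc 1 Q ×ˢ Finset.Icc 1 Q, bad p).ncard ≤
        ∑ p ∈ Finset.Icc 1 Q ×ˢ Finset.Icc 1 Q, (bad p).ncard := by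
      exact Finset.set_ncard_biUnion_le _ _
    exact_mod_cast h1.trans h2
  refine hcard.trans ?_
  calc ∑ p ∈ Finset.Icc 1 Q ×ˢ Finset.Icc 1 Q, ((bad p).ncard : ℝ)
      ≤ ∑ _p ∈ Finset.Icc 1 Q ×ˢ Finset.Icc 1 Q, (q : ℝ) ^ (1 - c) := Finset.sum_le_sum hbad
    _ = (Q : ℝ) * Q * (q : ℝ) ^ (1 - c) := by
        rw [Finset.sum_const, Finset.card_product, Nat.card_Icc, nsmul_eq_mul]
        push_cast
        simp
    _ ≤ (q : ℝ) ^ c' * (q : ℝ) ^ c' * (q : ℝ) ^ (1 - c) := by gcongr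
    _ = (q : ℝ) ^ (c' + c' + (1 - c)) := by rw [← Real.rpow_add hqp, ← Real.rpow_add hqp]
    _ ≤ (q : ℝ) ^ (1 - c') := Real.rpow_le_rpow_of_exponent_le hqR (by linarith)

end Pool.Agent.W5h30.OL.ValuesAtRationals
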